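import Pool.Agent.L7h59.AR.Final2

/-!
# Virtual Artin groups: the kernel is an Artin group of possibly infinite rank
-/

set_option autoImplicit false
set_option linter.unusedSectionVars false

namespace Pool.Agent.L7h59.VA

open CoxeterSystem Pool.Agent.Helper703.Cox Pool.Agent.TH5.BD Pool.Agent.L7h59.AR
open Pool.Agent.Y110.FJ

theorem ra_succ_right {G : Type*} [Monoid G] (a b : G) (k : ℕ) :
    ra a b (k + 1) = ra b a k * a := by
  induction k with
  | zero => simp [ra]
  | succ k ih =>
    rw [ra_succ a b (k + 1), ih, ra_succ b a k, ← mul_assoc]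
    by_cases h : Even k
    · have h' : ¬ Even (k + 1) := by simpa [Nat.even_add_one] using h
      rw [if_pos h, if_neg h']
    · have h' : Even (k + 1) := by simpa [Nat.even_add_one] using h
      rw [if_neg h, if_pos h']

theorem map_ra {G H : Type*} [Monoid G] [Monoid H] (f : G →* H) (a b : G) (k : ℕ) :
    f (ra a b k) = ra (f a) (f b) k := by
  induction k with
  | zero => simp [ra]
  | succ k ih =>
    rw [ra_succ, ra_succ, map_mul, ih]
    split_ifs <;> rfl

variable {B : Type} [Fintype B] [DecidableEq B] {M : CoxeterMatrix B} {W : Type} [Group W]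
  (cs : CoxeterSystem M W)

variable (M) in
/-- the end of an elementary move -/
def rr (s t : B) : B := if Even (M s t) then s else t

/-- the elementary move which starts at `s` -/
def um (s t : B) : W := ra (cs.simple t) (cs.simple s) (M s t - 1)

theorem um_conj (s t : B) (hm : M s t ≠ 0) :
    um cs s t * cs.simple s = cs.simple (rr M s t) * um cs s t := by
  obtain ⟨k, hk⟩ : ∃ k, M s t = k + 1 := ⟨M s t - 1, by omega⟩
  have h1 : ra (cs.simple s) (cs.simple t) (M s t) = ra (cs.simple t) (cs.simple s) (M s t) :=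
    ra_of_alt (braid cs s t)
  unfold um rr
  rw [hk] at h1 ⊢
  rw [Nat.add_sub_cancel, ← ra_succ_right, h1, ra_succ]
  by_cases h : Even k
  · have h' : ¬ Even (k + 1) := by simpa [Nat.even_add_one] using h
    rw [if_pos h, if_neg h']
  · have h' : Even (k + 1) := by simpa [Nat.even_add_one] using h
    rw [if_neg h, if_pos h']

/-- the elementary equivalences -/
inductive Mv : W × B → W × B → Prop
  | mk (w : W) (s t : B) (hst : s ≠ t) (hm : M s t ≠ 0) : Mv (w * um cs s t, s) (w, rr M s t)

/-- the set of the classes (the roots) -/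
def Om : Type := Quot (Mv cs)

/-- a class -/
def cl (w : W) (s : B) : Om cs := Quot.mk _ (w, s)

theorem cl_ind {p : Om cs → Prop} (h : ∀ w s, p (cl cs w s)) (β : Om cs) : p β := by
  obtain ⟨⟨w, s⟩, rfl⟩ := Quot.exists_rep β
  exact h w s

theorem cl_sound (w : W) (s t : B) (hst : s ≠ t) (hm : M s t ≠ 0) :
    cl cs (w * um cs s t) s = cl cs w (rr M s t) :=
  Quot.sound (Mv.mk w s t hst hm)

instance : MulAction W (Om cs) where
  smul w := Quot.map (fun p => (w * p.1, p.2)) (by
    rintro _ _ ⟨x, s, t, hst, hm⟩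
    show Mv cs (w * (x * um cs s t), s) (w * x, rr M s t)
    rw [← mul_assoc]
    exact Mv.mk _ s t hst hm)
  one_smul β := by
    induction β using cl_ind with
    | h w s => exact congrArg (Quot.mk _) (Prod.ext (one_mul w) rfl)
  mul_smul x y β := by
    induction β using cl_ind with
    | h w s => exact congrArg (Quot.mk _) (Prod.ext (mul_assoc x y w) rfl)

theorem smul_cl (x w : W) (s : B) : x • cl cs w s = cl cs (x * w) s := rfl

/-- the reflection of a class -/
def rf : Om cs → W := Quot.lift (fun p => p.1 * cs.simple p.2 * p.1⁻¹) (by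
  rintro _ _ ⟨x, s, t, hst, hm⟩
  show x * um cs s t * cs.simple s * (x * um cs s t)⁻¹ = x * cs.simple (rr M s t) * x⁻¹
  rw [mul_assoc x, um_conj cs s t hm]
  group)

theorem rf_cl (w : W) (s : B) : rf cs (cl cs w s) = w * cs.simple s * w⁻¹ := rfl

theorem ord_eq (s t : B) : orderOf (cs.simple s * cs.simple t) = M s t := by
  by_cases hst : s = t
  · subst hst
    rw [M.diagonal, cs.simple_mul_simple_self, orderOf_one]
  apply Nat.dvd_antisymm
  · exact orderOf_dvd_of_pow_eq_one (cs.simple_mul_simple_pow s t)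
  · exact ord_dvd (cs := cs) hst (pow_orderOf_eq_one _)

theorem ord_rf (w : W) (s t : B) : orderOf (rf cs (cl cs w s) * rf cs (cl cs w t)) = M s t := by
  rw [rf_cl, rf_cl, ← ord_eq cs s t]
  have e : w * cs.simple s * w⁻¹ * (w * cs.simple t * w⁻¹) =
      (MulAut.conj w) (cs.simple s * cs.simple t) := by
    rw [MulAut.conj_apply]; group
  rw [e]
  exact orderOf_injective (MulAut.conj w).toMonoidHom (MulAut.conj w).injective _

theorem cl_ne {w : W} {s t : B} (h : s ≠ t) : cl cs w s ≠ cl cs w t := by
  intro h1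
  have h2 := congrArg (rf cs) h1
  rw [rf_cl, rf_cl] at h2
  exact h (simple_injective cs (mul_left_cancel (mul_right_cancel h2)))

open Classical in
/-- the Coxeter matrix on the classes -/
noncomputable def mh : CoxeterMatrix (Om cs) where
  M := Matrix.of fun β γ => if β = γ then 1 else
    if ∃ w s t, β = cl cs w s ∧ γ = cl cs w t then orderOf (rf cs β * rf cs γ) else 0
  isSymm := by
    ext β γ
    simp only [Matrix.transpose_apply, Matrix.of_apply]
    by_cases h : β = γ
    · simp [h]
    · rw [if_neg (fun h2 => h h2.symm), if_neg h]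
      by_cases h1 : ∃ w s t, β = cl cs w s ∧ γ = cl cs w t
      · obtain ⟨w, s, t, rfl, rfl⟩ := h1
        rw [if_pos ⟨w, t, s, rfl, rfl⟩, if_pos ⟨w, s, t, rfl, rfl⟩, ord_rf, ord_rf, M.symmetric]
      · rw [if_neg h1, if_neg]
        rintro ⟨w, s, t, h2, h3⟩
        exact h1 ⟨w, t, s, h3, h2⟩
  diagonal := by simp
  off_diagonal := by
    intro β γ h
    simp only [Matrix.of_apply, if_neg h]
    split_ifs with h1
    · obtain ⟨w, s, t, rfl, rfl⟩ := h1
      rw [ord_rf]
      exact M.off_diagonal s t fun h2 => h (by rw [h2])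
    · norm_num

theorem mh_cl (w : W) (s t : B) : mh cs (cl cs w s) (cl cs w t) = M s t := by
  classical
  by_cases hst : s = t
  · subst hst
    rw [(mh cs).diagonal, M.diagonal]
  · show (if cl cs w s = cl cs w t then 1 else
      if ∃ x s' t', cl cs w s = cl cs x s' ∧ cl cs w t = cl cs x t' then
        orderOf (rf cs (cl cs w s) * rf cs (cl cs w t)) else 0) = _
    rw [if_neg (cl_ne cs hst), if_pos ⟨w, s, t, rfl, rfl⟩, ord_rf]

theorem mh_cases (β γ : Om cs) (h : mh cs β γ ≠ 0) (hne : β ≠ γ) :
    ∃ w s t, β = cl cs w s ∧ γ = cl cs w t := by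
  classical
  by_contra h1
  apply h
  show (if β = γ then 1 else
    if ∃ w s t, β = cl cs w s ∧ γ = cl cs w t then orderOf (rf cs β * rf cs γ) else 0) = 0
  rw [if_neg hne, if_neg h1]

theorem mh_smul (x : W) (β γ : Om cs) : mh cs (x • β) (x • γ) = mh cs β γ := by
  by_cases hne : β = γ
  · rw [hne, (mh cs).diagonal, (mh cs).diagonal]
  by_cases h : ∃ w s t, β = cl cs w s ∧ γ = cl cs w t
  · obtain ⟨w, s, t, rfl, rfl⟩ := h
    rw [smul_cl, smul_cl, mh_cl, mh_cl]
  · have h1 : mh cs β γ = 0 := by
      by_contra h2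
      exact h (mh_cases cs β γ h2 hne)
    rw [h1]
    by_contra h2
    obtain ⟨w, s, t, h3, h4⟩ := mh_cases cs _ _ h2 (fun h3 => hne (smul_left_cancel x h3))
    refine h ⟨x⁻¹ * w, s, t, ?_, ?_⟩
    · rw [← smul_cl, ← h3, inv_smul_smul]
    · rw [← smul_cl, ← h4, inv_smul_smul]

theorem taut1_gen (w : W) (β : Om cs) :
    taut (MulAction.toPerm w) (mh_smul cs w) 1 (Artin.gen (mh cs) β) =
      Artin.gen (mh cs) (w • β) :=
  (taut_gen (MulAction.toPerm w) (mh_smul cs w) 1 β).trans (zpow_one _)

/-- the action on the Artin group of the classes -/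
noncomputable def act : W →* MulAut (Artin (mh cs)) where
  toFun w := taut (MulAction.toPerm w) (mh_smul cs w) 1
  map_one' := by
    apply MulEquiv.toMonoidHom_injective
    apply Artin.hom_ext
    intro β
    refine (taut1_gen cs 1 β).trans ?_
    exact congrArg (Artin.gen (mh cs)) (one_smul W β)
  map_mul' x y := by
    apply MulEquiv.toMonoidHom_injective
    apply Artin.hom_ext
    intro β
    refine (taut1_gen cs (x * y) β).trans ?_
    have h : Artin.gen (mh cs) ((x * y) • β) = taut (MulAction.toPerm x) (mh_smul cs x) 1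
        (taut (MulAction.toPerm y) (mh_smul cs y) 1 (Artin.gen _ β)) := by
      refine Eq.trans ?_ (congrArg _ (taut1_gen cs y β).symm)
      refine Eq.trans ?_ (taut1_gen cs x _).symm
      exact congrArg (Artin.gen (mh cs)) (mul_smul x y β)
    exact h

theorem act_gen (w : W) (β : Om cs) :
    act cs w (Artin.gen (mh cs) β) = Artin.gen (mh cs) (w • β) :=
  taut1_gen cs w β

/-- the semidirect product -/
abbrev Pv : Type := Artin (mh cs) ⋊[act cs] W

theorem inr_inl (w : W) (β : Om cs) :
    (SemidirectProduct.inr w : Pv cs) * SemidirectProduct.inl (Artin.gen (mh cs) β) *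
      (SemidirectProduct.inr w)⁻¹ = SemidirectProduct.inl (Artin.gen (mh cs) (w • β)) := by
  rw [← map_inv SemidirectProduct.inr w]
  exact (SemidirectProduct.inl_aut (φ := act cs) w (Artin.gen (mh cs) β)).symm.trans
    (congrArg _ (act_gen cs w β))

/-- the semidirect product is in the class -/
theorem C_Pv {C : ∀ (G : Type) [Group G], Prop} (hC : ClosedE C)
    (hmet : ∀ (G : Type) [Group G], derivedSeries G 2 = ⊥ → C G)
    (hcox : ∀ (S : Type) (_ : Finite S) (A : CoxeterMatrix S), C A.Group) (hW : C W) :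
    C (Pv cs) ↔ ∀ X : Set (Om cs), X.Finite → (∀ i ∈ X, ∀ j ∈ X, mh cs i j ≠ 0) →
      C (Artin (rs (mh cs) X)) := by
  have hk : (SemidirectProduct.inl : Artin (mh cs) →* Pv cs).range =
      (SemidirectProduct.rightHom : Pv cs →* W).ker := SemidirectProduct.range_inl_eq_ker_rightHom
  have hn : ((SemidirectProduct.inl : Artin (mh cs) →* Pv cs).range).Normal := by
    rw [hk]; infer_instance
  refine ext hC hmet hcox (SemidirectProduct.inl : Artin (mh cs) →* Pv cs)
    SemidirectProduct.inl_injective rfl ?_ ?_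
  · intro g
    refine ⟨SemidirectProduct.inl g.left⁻¹, ⟨_, rfl⟩, MulAction.toPerm g.right, 1,
      mh_smul cs g.right, fun β => ?_⟩
    have e : SemidirectProduct.inl g.left⁻¹ * g = SemidirectProduct.inr g.right := by
      rw [map_inv, inv_mul_eq_iff_eq_mul, SemidirectProduct.inl_left_mul_inr_right]
    rw [e]
    exact (inr_inl cs g.right β).trans (zpow_one _).symm
  · have e : ∀ (K K' : Subgroup (Pv cs)) (_ : K.Normal) (_ : K'.Normal), K = K' →
        C (Pv cs ⧸ K') → C (Pv cs ⧸ K) := by
      rintro K K' _ _ rfl h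
      exact h
    refine e _ _ hn inferInstance hk ?_
    exact hC.base.of_injective _ _ (QuotientGroup.kerLift (SemidirectProduct.rightHom : Pv cs →* W))
      (QuotientGroup.kerLift_injective _) hW

section rel

variable {V : Type} [Group V] (σ τ : B → V)

/-- the relations of a virtual Artin group -/
structure VRel (M : CoxeterMatrix B) : Prop where
  hσ : ∀ i j, alt (σ i) (σ j) (M i j) = alt (σ j) (σ i) (M i j)
  hτ : ∀ i j, (τ i * τ j) ^ M i j = 1
  hm : ∀ i j, i ≠ j → M i j ≠ 0 →
    ra (τ j) (τ i) (M i j - 1) * σ i = σ (rr M i j) * ra (τ j) (τ i) (M i j - 1)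

variable {σ τ}

/-- the homomorphism of the Coxeter group -/
noncomputable def gv (h : VRel σ τ M) : W →* V := cs.lift ⟨τ, h.hτ⟩

theorem gv_simple (h : VRel σ τ M) (i : B) : gv cs h (cs.simple i) = τ i :=
  cs.lift_apply_simple h.hτ i

theorem gv_um (h : VRel σ τ M) (s t : B) :
    gv cs h (um cs s t) = ra (τ t) (τ s) (M s t - 1) := by
  unfold um
  rw [map_ra, gv_simple, gv_simple]

/-- the image of a class -/
noncomputable def f0 (h : VRel σ τ M) : Om cs → V :=
  Quot.lift (fun p => gv cs h p.1 * σ p.2 * (gv cs h p.1)⁻¹) (by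
    rintro _ _ ⟨x, s, t, hst, hm⟩
    show gv cs h (x * um cs s t) * σ s * (gv cs h (x * um cs s t))⁻¹ =
      gv cs h x * σ (rr M s t) * (gv cs h x)⁻¹
    rw [map_mul, gv_um, mul_assoc (gv cs h x), h.hm s t hst hm]
    group)

theorem f0_cl (h : VRel σ τ M) (w : W) (s : B) :
    f0 cs h (cl cs w s) = gv cs h w * σ s * (gv cs h w)⁻¹ := rfl

/-- the homomorphism of the kernel -/
noncomputable def fv (h : VRel σ τ M) : Artin (mh cs) →* V :=
  Artin.lift (f0 cs h) (fun β γ => by
    by_cases hne : β = γ
    · rw [hne]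
    by_cases h0 : mh cs β γ = 0
    · rw [h0, alt_zero, alt_zero]
    obtain ⟨w, s, t, rfl, rfl⟩ := mh_cases cs β γ h0 hne
    rw [mh_cl, f0_cl, f0_cl]
    have e : ∀ x : V, gv cs h w * x * (gv cs h w)⁻¹ = (MulAut.conj (gv cs h w)).toMonoidHom x :=
      fun x => rfl
    rw [e, e, ← map_alt, ← map_alt, h.hσ])

theorem fv_gen (h : VRel σ τ M) (β : Om cs) : fv cs h (Artin.gen _ β) = f0 cs h β :=
  Artin.lift_gen _ _ _

/-- the homomorphism of the semidirect product -/
noncomputable def Gv (h : VRel σ τ M) : Pv cs →* V :=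
  SemidirectProduct.lift (fv cs h) (gv cs h) (fun w => by
    apply Artin.hom_ext
    intro β
    show fv cs h (act cs w (Artin.gen _ β)) = gv cs h w * fv cs h (Artin.gen _ β) * (gv cs h w)⁻¹
    rw [act_gen, fv_gen, fv_gen]
    induction β using cl_ind with
    | h x s =>
      rw [smul_cl, f0_cl, f0_cl, map_mul]
      group)

theorem Gv_inl (h : VRel σ τ M) (s : B) :
    Gv cs h (SemidirectProduct.inl (Artin.gen _ (cl cs 1 s))) = σ s := by
  unfold Gv
  rw [SemidirectProduct.lift_inl, fv_gen, f0_cl, map_one]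
  simp

theorem Gv_inr (h : VRel σ τ M) (s : B) :
    Gv cs h (SemidirectProduct.inr (cs.simple s)) = τ s := by
  unfold Gv
  rw [SemidirectProduct.lift_inr, gv_simple]

end rel

/-- the relations hold in the semidirect product -/
theorem vrel_Pv : VRel (V := Pv cs) (fun s => SemidirectProduct.inl (Artin.gen _ (cl cs 1 s)))
    (fun s => SemidirectProduct.inr (cs.simple s)) M where
  hσ i j := by
    rw [← map_alt, ← map_alt]
    have h := Artin.rel (M := mh cs) (cl cs 1 i) (cl cs 1 j)
    rw [mh_cl] at h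
    rw [h]
  hτ i j := by
    show ((SemidirectProduct.inr (cs.simple i) : Pv cs) *
      SemidirectProduct.inr (cs.simple j)) ^ M i j = 1
    rw [← map_mul, ← map_pow, cs.simple_mul_simple_pow, map_one]
  hm i j hij hm := by
    show ra (SemidirectProduct.inr (cs.simple j) : Pv cs) (SemidirectProduct.inr (cs.simple i))
        (M i j - 1) * SemidirectProduct.inl (Artin.gen _ (cl cs 1 i)) =
      SemidirectProduct.inl (Artin.gen _ (cl cs 1 (rr M i j))) *
        ra (SemidirectProduct.inr (cs.simple j) : Pv cs) (SemidirectProduct.inr (cs.simple i))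
          (M i j - 1)
    have h := cl_sound cs 1 i j hij hm
    have h2 := inr_inl cs (um cs i j) (cl cs 1 i)
    rw [smul_cl, mul_one] at h2
    rw [one_mul] at h
    rw [h] at h2
    have h3 : ra (SemidirectProduct.inr (cs.simple j) : Pv cs)
        (SemidirectProduct.inr (cs.simple i)) (M i j - 1) =
        (SemidirectProduct.inr (um cs i j) : Pv cs) := (map_ra SemidirectProduct.inr _ _ _).symm
    rw [h3]
    exact mul_inv_eq_iff_eq_mul.1 h2

end Pool.Agent.L7h59.VA
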