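import Pool.Agent.L7h59.AR.Final2

/-!
# The Artin group of a permutation
-/

set_option autoImplicit false
set_option linter.unusedSectionVars false

namespace Pool.Agent.L7h59.VA

open Pool.Agent.Helper703.Cox Pool.Agent.L7h59.AR
open Pool.Agent.Y110.FJ
open Pool.Agent.Y462.SS (Closed)

variable {C : ∀ (G : Type) [Group G], Prop}

/-- the affine Coxeter matrix of type `Ã` with `k` generators (for `3 ≤ k`): a cycle of length `k` -/
def affA (k : ℕ) : CoxeterMatrix (ZMod k) where
  M := Matrix.of fun i j => if i = j then 1 else if j = i + 1 ∨ i = j + 1 then 3 else 2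
  isSymm := by
    ext i j
    simp only [Matrix.transpose_apply, Matrix.of_apply]
    by_cases h : i = j
    · simp [h]
    · rw [if_neg h, if_neg (fun h' => h h'.symm)]
      by_cases h1 : j = i + 1 ∨ i = j + 1
      · rw [if_pos h1, if_pos h1.symm]
      · rw [if_neg h1, if_neg (fun h2 => h1 h2.symm)]
  diagonal i := by simp
  off_diagonal i j h := by
    simp only [Matrix.of_apply, if_neg h]
    split_ifs <;> norm_num

theorem affA_apply {k : ℕ} (i j : ZMod k) :
    affA k i j = if i = j then 1 else if j = i + 1 ∨ i = j + 1 then 3 else 2 := rfl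

section permM

variable {S : Type} [DecidableEq S] (π : Equiv.Perm S)

/-- the matrix of a permutation -/
def permM : CoxeterMatrix S where
  M := Matrix.of fun i j => if i = j then 1 else
    if j = π i ∧ i = π j then 0 else if j = π i ∨ i = π j then 3 else 2
  isSymm := by
    ext i j
    simp only [Matrix.transpose_apply, Matrix.of_apply]
    by_cases h : i = j
    · simp [h]
    · rw [if_neg h, if_neg (fun h' => h h'.symm)]
      by_cases h1 : j = π i ∧ i = π j
      · rw [if_pos h1, if_pos h1.symm]
      · rw [if_neg h1, if_neg (fun h2 => h1 h2.symm)]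
        by_cases h3 : j = π i ∨ i = π j
        · rw [if_pos h3, if_pos h3.symm]
        · rw [if_neg h3, if_neg (fun h2 => h3 h2.symm)]
  diagonal i := by simp
  off_diagonal i j h := by
    simp only [Matrix.of_apply, if_neg h]
    split_ifs <;> norm_num

theorem permM_apply (i j : S) : permM π i j = if i = j then 1 else
    if j = π i ∧ i = π j then 0 else if j = π i ∨ i = π j then 3 else 2 := rfl

end permM

/-- groups with one generator -/
theorem C_sub (hmet : ∀ (G : Type) [Group G], derivedSeries G 2 = ⊥ → C G)
    {S : Type} [Subsingleton S] (M : CoxeterMatrix S) : C (Artin M) := by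
  have hcomm : ∀ x y : Artin M, Commute x y := by
    intro x
    induction x using Artin.induction with
    | one => intro y; exact Commute.one_left _
    | gen i =>
      intro y
      induction y using Artin.induction with
      | one => exact Commute.one_right _
      | gen j => rw [Subsingleton.elim i j]
      | mul a b ha hb => exact ha.mul_right hb
      | inv a ha => exact ha.inv_right
    | mul a b ha hb => intro y; exact (ha y).mul_left (hb y)
    | inv a ha => intro y; exact (ha y).inv_left
  apply hmet
  have h1 : derivedSeries (Artin M) 1 = ⊥ := by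
    rw [derivedSeries_one, eq_bot_iff]
    show ⁅(⊤ : Subgroup (Artin M)), (⊤ : Subgroup (Artin M))⁆ ≤ ⊥
    rw [Subgroup.commutator_le]
    intro x _ y _
    rw [Subgroup.mem_bot, commutatorElement_eq_one_iff_mul_comm]
    exact hcomm x y
  rw [derivedSeries_succ, h1, Subgroup.commutator_bot_left]

/-- splitting off a set with labels two -/
theorem C_split (hC : ClosedE C) {S : Type} (M : CoxeterMatrix S) (O : Set S)
    (h : ∀ i ∈ O, ∀ j ∉ O, M i j = 2) (h1 : C (Artin (rs M O))) (h2 : C (Artin (rs M Oᶜ))) :
    C (Artin M) := by
  classical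
  have hcomm : ∀ (x : Artin (rs M O)) (y : Artin (rs M Oᶜ)), Commute (ko M O x) (ko M Oᶜ y) := by
    intro x
    induction x using Artin.induction with
    | one => intro y; rw [map_one]; exact Commute.one_left _
    | gen i =>
      intro y
      induction y using Artin.induction with
      | one => rw [map_one]; exact Commute.one_right _
      | gen j =>
        rw [ko_gen, ko_gen]
        have h3 := Artin.rel (M := M) (i : S) (j : S)
        rw [h i i.2 j j.2, alt_two, alt_two] at h3
        exact h3
      | mul a b ha hb => rw [map_mul]; exact ha.mul_right hb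
      | inv a ha => rw [map_inv]; exact ha.inv_right
    | mul a b ha hb => intro y; rw [map_mul]; exact (ha y).mul_left (hb y)
    | inv a ha => intro y; rw [map_inv]; exact (ha y).inv_left
  obtain ⟨f0, hf0⟩ : ∃ f0 : S → Artin (rs M O) × Artin (rs M Oᶜ), f0 = fun i =>
      if hi : i ∈ O then (Artin.gen _ ⟨i, hi⟩, 1) else (1, Artin.gen _ ⟨i, hi⟩) := ⟨_, rfl⟩
  have hp : ∀ i (hi : i ∈ O), f0 i = (Artin.gen _ ⟨i, hi⟩, 1) := fun i hi => by
    rw [hf0]; exact dif_pos hi
  have hn : ∀ i (hi : i ∉ O), f0 i = (1, Artin.gen _ ⟨i, hi⟩) := fun i hi => by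
    rw [hf0]; exact dif_neg hi
  have hl : ∀ (a b : Artin (rs M O)) (k : ℕ),
      alt (a, (1 : Artin (rs M Oᶜ))) (b, 1) k = (alt a b k, 1) := by
    intro a b k
    exact (map_alt (MonoidHom.inl (Artin (rs M O)) (Artin (rs M Oᶜ))) a b k).symm
  have hr : ∀ (a b : Artin (rs M Oᶜ)) (k : ℕ),
      alt ((1 : Artin (rs M O)), a) (1, b) k = (1, alt a b k) := by
    intro a b k
    exact (map_alt (MonoidHom.inr (Artin (rs M O)) (Artin (rs M Oᶜ))) a b k).symm
  let F : Artin M →* Artin (rs M O) × Artin (rs M Oᶜ) := Artin.lift f0 (fun i j => by
    by_cases hi : i ∈ O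
    · by_cases hj : j ∈ O
      · rw [hp i hi, hp j hj, hl, hl]
        exact Prod.ext (Artin.rel (M := rs M O) ⟨i, hi⟩ ⟨j, hj⟩) rfl
      · rw [hp i hi, hn j hj, h i hi j hj, alt_two, alt_two]
        refine Prod.ext ?_ ?_
        · show Artin.gen _ _ * 1 = 1 * Artin.gen _ _
          rw [mul_one, one_mul]
        · show 1 * Artin.gen _ _ = Artin.gen _ _ * 1
          rw [mul_one, one_mul]
    · by_cases hj : j ∈ O
      · rw [hn i hi, hp j hj, M.symmetric, h j hj i hi, alt_two, alt_two]
        refine Prod.ext ?_ ?_
        · show 1 * Artin.gen _ _ = Artin.gen _ _ * 1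
          rw [mul_one, one_mul]
        · show Artin.gen _ _ * 1 = 1 * Artin.gen _ _
          rw [mul_one, one_mul]
      · rw [hn i hi, hn j hj, hr, hr]
        exact Prod.ext rfl (Artin.rel (M := rs M Oᶜ) ⟨i, hi⟩ ⟨j, hj⟩))
  have hF : ∀ i, F (Artin.gen M i) = f0 i := fun i => Artin.lift_gen _ _ _
  let G : Artin (rs M O) × Artin (rs M Oᶜ) →* Artin M :=
    (ko M O).noncommCoprod (ko M Oᶜ) hcomm
  have hGF : G.comp F = MonoidHom.id _ := by
    apply Artin.hom_ext
    intro i
    show G (F (Artin.gen M i)) = Artin.gen M i
    rw [hF]
    by_cases hi : i ∈ O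
    · rw [hp i hi]
      show ko M O (Artin.gen _ ⟨i, hi⟩) * ko M Oᶜ 1 = _
      rw [map_one, mul_one, ko_gen]
    · rw [hn i hi]
      show ko M O 1 * ko M Oᶜ (Artin.gen _ ⟨i, hi⟩) = _
      rw [map_one, one_mul]
      exact ko_gen M _ ⟨i, hi⟩
  refine hC.base.of_injective _ _ F ?_ (hC.base.prod _ _ h1 h2)
  intro x y hxy
  have h3 : ∀ z, G (F z) = z := fun z => DFunLike.congr_fun hGF z
  rw [← h3 x, ← h3 y, hxy]

/-- **Artin groups of permutations** -/
theorem C_perm (hC : ClosedE C) (hmet : ∀ (G : Type) [Group G], derivedSeries G 2 = ⊥ → C G)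
    (hcox : ∀ (S : Type) (_ : Finite S) (A : CoxeterMatrix S), C A.Group) :
    ∀ (n : ℕ) (_ : ∀ k, 3 ≤ k → k ≤ n → C (Artin (affA k)))
      (S : Type) [Finite S] [DecidableEq S] (π : Equiv.Perm S), Nat.card S = n →
      C (Artin (permM π)) := by
  intro n
  induction n using Nat.strong_induction_on with
  | _ n ih =>
    intro h3 S _ _ π hn
    rcases isEmpty_or_nonempty S with hS | ⟨⟨x⟩⟩
    · exact C_sub hmet _
    obtain ⟨O, hO⟩ : ∃ O : Set S, O = {y | π.SameCycle x y} := ⟨_, rfl⟩
    have hmem : ∀ y, y ∈ O ↔ π.SameCycle x y := fun y => by rw [hO]; rfl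
    have hxO : x ∈ O := (hmem x).2 (Equiv.Perm.SameCycle.refl π x)
    have hOπ : ∀ y, π y ∈ O ↔ y ∈ O := by
      intro y
      rw [hmem, hmem, Equiv.Perm.sameCycle_apply_right]
    refine C_split hC (permM π) O ?_ ?_ ?_
    · intro i hi j hj
      have h1 : i ≠ j := by
        rintro rfl
        exact hj hi
      have h2 : j ≠ π i := by
        rintro rfl
        exact hj ((hOπ i).2 hi)
      have h4 : i ≠ π j := by
        intro h5
        rw [h5] at hi
        exact hj ((hOπ j).1 hi)
      rw [permM_apply, if_neg h1, if_neg (fun h => h2 h.1), if_neg (fun h => h.elim h2 h4)]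
    · by_cases hxx : π (π x) = x
      · -- at most two elements
        have hO2 : ∀ y ∈ O, y = x ∨ y = π x := by
          intro y hy
          obtain ⟨k, hk⟩ := (hmem y).1 hy
          have hind : ∀ k : ℤ, (π ^ k) x = x ∨ (π ^ k) x = π x := by
            intro k
            induction k using Int.induction_on with
            | zero => exact Or.inl rfl
            | succ k ih =>
              have e : (π ^ ((k : ℤ) + 1)) x = π ((π ^ (k : ℤ)) x) := by
                rw [add_comm, zpow_add, zpow_one]; rfl
              rw [e]
              rcases ih with ih | ih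
              · exact Or.inr (by rw [ih])
              · exact Or.inl (by rw [ih, hxx])
            | pred k ih =>
              have e : π ((π ^ (-(k : ℤ) - 1)) x) = (π ^ (-(k : ℤ))) x := by
                have : π ^ (-(k : ℤ)) = π * π ^ (-(k : ℤ) - 1) := by
                  rw [← zpow_one_add]; congr 1; ring
                rw [this]; rfl
              rcases ih with ih | ih
              · refine Or.inr (π.injective ?_)
                rw [e, ih, hxx]
              · refine Or.inl (π.injective ?_)
                rw [e, ih]
          rw [← hk]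
          exact hind k
        rw [artin hC hmet hcox]
        intro X _ hX
        have hsub : Subsingleton X := by
          refine ⟨fun i j => Subtype.ext ?_⟩
          by_contra hne
          apply hX i i.2 j j.2
          have hne' : ((i : O) : S) ≠ ((j : O) : S) := fun h => hne (Subtype.ext h)
          have hi := hO2 _ (i : O).2
          have hj := hO2 _ (j : O).2
          show permM π ((i : O) : S) ((j : O) : S) = 0
          rw [permM_apply, if_neg hne', if_pos]
          rcases hi with hi | hi <;> rcases hj with hj | hj
          · exact absurd (hi.trans hj.symm) hne'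
          · exact ⟨by rw [hj, hi], by rw [hj, hi, hxx]⟩
          · exact ⟨by rw [hj, hi, hxx], by rw [hj, hi]⟩
          · exact absurd (hi.trans hj.symm) hne'
        exact C_sub hmet _
      · -- a cycle of length at least three
        obtain ⟨k, hk⟩ : ∃ k, k = Function.minimalPeriod (π • ·) x := ⟨_, rfl⟩
        have hdvd : ∀ m : ℤ, (π ^ m) x = x ↔ (k : ℤ) ∣ m := by
          intro m
          rw [hk]
          have h1 : π ^ m • x = x ↔ (Function.minimalPeriod (π • ·) x : ℤ) ∣ m :=
            MulAction.zpow_smul_eq_iff_minimalPeriod_dvd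
          exact h1
        have hk3 : 3 ≤ k := by
          have h0 : k ≠ 0 := by
            rintro rfl
            have h1 := (hdvd (orderOf π)).1 (by rw [zpow_natCast, pow_orderOf_eq_one]; rfl)
            have h2 : (orderOf π : ℤ) = 0 := by
              simpa using h1
            have h4 := orderOf_pos π
            omega
          have h1 : k ≠ 1 := by
            rintro rfl
            have h2 := (hdvd 2).2 (by norm_num)
            exact hxx h2
          have h2 : k ≠ 2 := by
            rintro rfl
            have h2 := (hdvd 2).2 (by norm_num)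
            exact hxx h2
          omega
        have hkn : k ≤ n := by
          have h1 : Function.Injective (fun j : Fin k => (π ^ ((j : ℕ) : ℤ)) x) := by
            intro a b hab
            have h2 : (π ^ (((b : ℕ) : ℤ) - ((a : ℕ) : ℤ))) x = x := by
              have e : π ^ ((b : ℕ) : ℤ) = π ^ ((a : ℕ) : ℤ) *
                  π ^ (((b : ℕ) : ℤ) - ((a : ℕ) : ℤ)) := by rw [← zpow_add]; congr 1; ring
              have h3 : (π ^ ((a : ℕ) : ℤ)) x = (π ^ ((b : ℕ) : ℤ)) x := hab
              rw [e] at h3
              exact ((π ^ ((a : ℕ) : ℤ)).injective h3).symm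
            rw [hdvd] at h2
            obtain ⟨c, hc⟩ := h2
            have ha := a.2
            have hb := b.2
            apply Fin.ext
            rcases lt_trichotomy c 0 with h | h | h
            · nlinarith
            · rw [h, mul_zero] at hc
              omega
            · nlinarith
          have h2 := Nat.card_le_card_of_injective _ h1
          rwa [Nat.card_fin, hn] at h2
        have hex : ∀ y : O, ∃ m : ℤ, (π ^ m) x = y := fun y => (hmem y).1 y.2
        choose m hm using hex
        have hiff : ∀ (a b : ℤ), (π ^ a) x = (π ^ b) x ↔ (a : ZMod k) = b := by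
          intro a b
          rw [ZMod.intCast_eq_intCast_iff_dvd_sub, ← hdvd]
          have e : (π ^ b) x = (π ^ a) ((π ^ (b - a)) x) := by
            have : π ^ b = π ^ a * π ^ (b - a) := by rw [← zpow_add]; congr 1; ring
            rw [this]; rfl
          rw [e]
          constructor
          · intro h
            exact ((π ^ a).injective h).symm
          · intro h
            rw [h]
        have hstep : ∀ y z : O, (z : S) = π y ↔ (m z : ZMod k) = m y + 1 := by
          intro y z
          have e : π (y : S) = (π ^ (m y + 1)) x := by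
            rw [add_comm, zpow_add, zpow_one]
            show _ = π ((π ^ m y) x)
            rw [hm]
          rw [e, ← hm z, hiff]
          push_cast
          rfl
        refine hC.base.of_injective _ _ (amap (M := rs (permM π) O) (M' := affA k)
          (fun y => (m y : ZMod k)) (fun y z => ?_)) (amap_injective _ _ ?_) (h3 k hk3 hkn)
        · show affA k (m y : ZMod k) (m z : ZMod k) = permM π y z
          have heq : ((m y : ZMod k) = m z) ↔ (y : S) = z := by rw [← hiff, hm, hm]
          rw [affA_apply, permM_apply]
          by_cases hyz : (y : S) = z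
          · rw [if_pos (heq.2 hyz), if_pos hyz]
          · have hnot : ¬ ((z : S) = π y ∧ (y : S) = π z) := by
              rintro ⟨h1, h2⟩
              apply hxx
              have h5 : π (π (y : S)) = y := by rw [← h1, ← h2]
              have h6 : (π ^ (m y)) (π (π x)) = (π ^ (m y)) x := by
                have e : (π ^ (m y)) (π (π x)) = π (π ((π ^ (m y)) x)) := by
                  have h7 : π ^ (m y) * (π * π) = (π * π) * π ^ (m y) := by
                    rw [← zpow_two, ← zpow_add, ← zpow_add, add_comm]
                  exact DFunLike.congr_fun h7 x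
                rw [e, hm, h5]
              exact (π ^ (m y)).injective h6
            rw [if_neg (fun h => hyz (heq.1 h)), if_neg hyz, if_neg hnot]
            by_cases hs : (z : S) = π y ∨ (y : S) = π z
            · rw [if_pos hs, if_pos]
              rw [hstep, hstep] at hs
              exact hs
            · rw [if_neg hs, if_neg]
              rw [hstep, hstep] at hs
              exact hs
        · intro y z hyz
          have h1 : (m y : ZMod k) = m z := hyz
          rw [← hiff, hm, hm] at h1
          exact Subtype.ext h1
    · -- the complement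
      have hinv : ∀ y, y ∈ Oᶜ ↔ π y ∈ Oᶜ := fun y => not_congr (hOπ y).symm
      obtain ⟨π', hπ'⟩ : ∃ π' : Equiv.Perm ↥(Oᶜ), ∀ y, ((π' y : ↥(Oᶜ)) : S) = π y :=
        ⟨π.subtypePerm (fun y => (hinv y).symm), fun y => rfl⟩
      have hcard : Nat.card ↥(Oᶜ) < n := by
        rw [← hn]
        have h1 : Nat.card ↥(Oᶜ) = (Oᶜ).ncard := rfl
        rw [h1, ← Set.ncard_univ]
        refine Set.ncard_lt_ncard ?_ (Set.toFinite _)
        refine Set.ssubset_iff_subset_ne.2 ⟨Set.subset_univ _, fun h => ?_⟩
        have h2 : x ∈ (Oᶜ : Set S) := by rw [h]; trivial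
        exact h2 hxO
      refine hC.base.of_injective _ _ (amap (M := rs (permM π) Oᶜ) (M' := permM π')
        (fun y => y) (fun y z => ?_)) (amap_injective _ _ Function.injective_id)
        (ih _ hcard (fun k hk hk' => h3 k hk (hk'.trans hcard.le)) ↥(Oᶜ) π' rfl)
      show permM π' y z = permM π y z
      rw [permM_apply, permM_apply]
      simp only [Subtype.ext_iff, hπ']

end Pool.Agent.L7h59.VA
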