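import Pool.Agent.L7h59.VA.Main
import Pool.Agent.L7h59.VA.Perm

/-!
# Virtual braid groups
-/

set_option autoImplicit false
set_option linter.unusedSectionVars false

namespace Pool.Agent.L7h59.VA

open CoxeterSystem Pool.Agent.Helper703.Cox Pool.Agent.TH5.BD Pool.Agent.L7h59.AR
open Pool.Agent.Y110.FJ

theorem A_apply {n : ℕ} (i j : Fin n) : CoxeterMatrix.A n i j =
    if i = j then 1 else if (j : ℕ) + 1 = i ∨ (i : ℕ) + 1 = j then 3 else 2 := rfl

section act

variable {n : ℕ}

/-- the transposition -/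
def tr (i : Fin n) : Equiv.Perm (Fin (n + 1)) := Equiv.swap i.castSucc i.succ

theorem tr_val (i : Fin n) (x : Fin (n + 1)) : ((tr i x : Fin (n + 1)) : ℕ) =
    if (x : ℕ) = i then (i : ℕ) + 1 else if (x : ℕ) = i + 1 then (i : ℕ) else x := by
  unfold tr
  rw [Equiv.swap_apply_def]
  simp only [Fin.ext_iff, Fin.val_castSucc, Fin.val_succ]
  split_ifs <;> simp

theorem three {α : Type} [Fintype α] [DecidableEq α] {a b c : α} (h1 : a ≠ b) (h2 : a ≠ c)
    (h3 : b ≠ c) : (Equiv.swap a b * Equiv.swap a c) ^ 3 = 1 := by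
  rw [← (Equiv.Perm.isThreeCycle_swap_mul_swap_same h1 h2 h3).orderOf]
  exact pow_orderOf_eq_one _

theorem tr_rel (i j : Fin n) : (tr i * tr j) ^ (CoxeterMatrix.A n i j) = 1 := by
  rw [A_apply]
  by_cases hij : i = j
  · subst hij
    rw [if_pos rfl, pow_one]
    exact Equiv.swap_mul_self _ _
  rw [if_neg hij]
  have hij' : (i : ℕ) ≠ j := fun h => hij (Fin.ext h)
  by_cases h : (j : ℕ) + 1 = i ∨ (i : ℕ) + 1 = j
  · rw [if_pos h]
    unfold tr
    rcases h with h | h
    · have e : j.succ = i.castSucc := Fin.ext (by simp [h])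
      rw [e, Equiv.swap_comm j.castSucc]
      apply three
      · intro h1; have := congrArg Fin.val h1; simp at this
      · intro h1; have := congrArg Fin.val h1; simp at this; omega
      · intro h1; have := congrArg Fin.val h1; simp at this; omega
    · have e : i.succ = j.castSucc := Fin.ext (by simp [h])
      rw [e, Equiv.swap_comm i.castSucc]
      apply three
      · intro h1; have := congrArg Fin.val h1; simp at this; omega
      · intro h1; have := congrArg Fin.val h1; simp at this
      · intro h1; have := congrArg Fin.val h1; simp at this; omega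
  · rw [if_neg h]
    push Not at h
    have hc : Commute (tr i) (tr j) := by
      apply Equiv.Perm.Disjoint.commute
      apply Equiv.Perm.disjoint_swap_swap
      simp only [List.nodup_cons, List.mem_cons, List.not_mem_nil, or_false, not_false_eq_true,
        List.nodup_nil, and_true, not_or, Fin.ext_iff, Fin.val_castSucc, Fin.val_succ]
      omega
    rw [hc.mul_pow]
    have e : ∀ k : Fin n, tr k ^ 2 = 1 := fun k => by
      rw [pow_two]; exact Equiv.swap_mul_self _ _
    rw [e, e, one_mul]

variable (n) in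
/-- the Coxeter system of type `A` -/
noncomputable abbrev cA : CoxeterSystem (CoxeterMatrix.A n) (CoxeterMatrix.A n).Group :=
  (CoxeterMatrix.A n).toCoxeterSystem

/-- the action on the points -/
noncomputable def aA : (CoxeterMatrix.A n).Group →* Equiv.Perm (Fin (n + 1)) :=
  (cA n).lift ⟨tr, tr_rel⟩

theorem aA_simple (i : Fin n) : aA ((cA n).simple i) = tr i := (cA n).lift_apply_simple tr_rel i

theorem aA_um (i j : Fin n) (hij : i ≠ j) :
    aA (um (cA n) i j) i.castSucc = (rr (CoxeterMatrix.A n) i j).castSucc ∧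
    aA (um (cA n) i j) i.succ = (rr (CoxeterMatrix.A n) i j).succ := by
  have hij' : (i : ℕ) ≠ j := fun h => hij (Fin.ext h)
  by_cases h : (j : ℕ) + 1 = i ∨ (i : ℕ) + 1 = j
  · have hm : CoxeterMatrix.A n i j = 3 := by rw [A_apply, if_neg hij, if_pos h]
    have hr : rr (CoxeterMatrix.A n) i j = j := by
      unfold rr
      rw [hm, if_neg (by decide)]
    have hu : um (cA n) i j = (cA n).simple i * (cA n).simple j := by
      unfold um
      rw [hm]
      simp [ra]
    rw [hr, hu, map_mul, aA_simple, aA_simple, Equiv.Perm.mul_apply, Equiv.Perm.mul_apply]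
    constructor
    · apply Fin.ext
      rw [tr_val, tr_val]
      simp only [Fin.val_castSucc]
      split_ifs <;> omega
    · apply Fin.ext
      rw [tr_val, tr_val]
      simp only [Fin.val_succ]
      split_ifs <;> omega
  · have hm : CoxeterMatrix.A n i j = 2 := by rw [A_apply, if_neg hij, if_neg h]
    have hr : rr (CoxeterMatrix.A n) i j = i := by
      unfold rr
      rw [hm, if_pos (by decide)]
    have hu : um (cA n) i j = (cA n).simple j := by
      unfold um
      rw [hm]
      simp [ra]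
    rw [hr, hu, aA_simple]
    push Not at h
    constructor
    · apply Fin.ext
      rw [tr_val]
      simp only [Fin.val_castSucc]
      split_ifs <;> omega
    · apply Fin.ext
      rw [tr_val]
      simp only [Fin.val_succ]
      split_ifs <;> omega

/-- the source of a class -/
noncomputable def src : Om (cA n) → Fin (n + 1) :=
  Quot.lift (fun p => aA p.1 p.2.castSucc) (by
    rintro _ _ ⟨w, i, j, hij, hm⟩
    show aA (w * um (cA n) i j) i.castSucc = aA w (rr (CoxeterMatrix.A n) i j).castSucc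
    rw [map_mul, Equiv.Perm.mul_apply, (aA_um i j hij).1])

/-- the target of a class -/
noncomputable def tgt : Om (cA n) → Fin (n + 1) :=
  Quot.lift (fun p => aA p.1 p.2.succ) (by
    rintro _ _ ⟨w, i, j, hij, hm⟩
    show aA (w * um (cA n) i j) i.succ = aA w (rr (CoxeterMatrix.A n) i j).succ
    rw [map_mul, Equiv.Perm.mul_apply, (aA_um i j hij).2])

theorem src_cl (w : (CoxeterMatrix.A n).Group) (i : Fin n) :
    src (cl (cA n) w i) = aA w i.castSucc := rfl

theorem tgt_cl (w : (CoxeterMatrix.A n).Group) (i : Fin n) :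
    tgt (cl (cA n) w i) = aA w i.succ := rfl

/-- extension of a partial injection to a permutation -/
theorem ex_perm {X S : Type} [Finite S] (f g : X → S) (hf : Function.Injective f)
    (hg : Function.Injective g) : ∃ π : Equiv.Perm S, ∀ x, π (f x) = g x := by
  classical
  have hfin : Fintype S := Fintype.ofFinite S
  let e : {y // y ∈ Set.range f} ≃ {y // y ∈ Set.range g} :=
    (Equiv.ofInjective f hf).symm.trans (Equiv.ofInjective g hg)
  refine ⟨e.extendSubtype, fun x => ?_⟩
  rw [Equiv.extendSubtype_apply_of_mem e (f x) ⟨x, rfl⟩]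
  show (((Equiv.ofInjective g hg) ((Equiv.ofInjective f hf).symm ⟨f x, ⟨x, rfl⟩⟩) :
    {y // y ∈ Set.range g}) : S) = g x
  have h1 : (Equiv.ofInjective f hf).symm ⟨f x, ⟨x, rfl⟩⟩ = x := by
    rw [Equiv.symm_apply_eq]
    rfl
  rw [h1]
  rfl

/-- **complete sets of classes** -/
theorem C_clique {C : ∀ (G : Type) [Group G], Prop} (hC : ClosedE C)
    (hmet : ∀ (G : Type) [Group G], derivedSeries G 2 = ⊥ → C G)
    (hcox : ∀ (S : Type) (_ : Finite S) (A : CoxeterMatrix S), C A.Group)
    (h3 : ∀ k, 3 ≤ k → k ≤ n + 1 → C (Artin (affA k))) (X : Set (Om (cA n))) (hXf : X.Finite)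
    (hX : ∀ i ∈ X, ∀ j ∈ X, mh (cA n) i j ≠ 0) : C (Artin (rs (mh (cA n)) X)) := by
  have hXfin : Finite X := hXf.to_subtype
  have hcs : ∀ i j : Fin n, i ≠ j → i.castSucc ≠ j.castSucc := fun i j h h' =>
    h (Fin.castSucc_injective n h')
  have hsc : ∀ i j : Fin n, i ≠ j → i.succ ≠ j.succ := fun i j h h' =>
    h (Fin.succ_injective n h')
  have hsrc : Function.Injective fun β : X => src (β : Om (cA n)) := by
    intro β γ h
    by_contra hne
    have hne' : (β : Om (cA n)) ≠ γ := fun h' => hne (Subtype.ext h')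
    obtain ⟨w, s, t, h1, h2⟩ := mh_cases (cA n) _ _ (hX β β.2 γ γ.2) hne'
    have hst : s ≠ t := by
      rintro rfl
      exact hne' (h1.trans h2.symm)
    have h4 : src (β : Om (cA n)) = src (γ : Om (cA n)) := h
    rw [h1, h2, src_cl, src_cl] at h4
    exact hcs s t hst ((aA w).injective h4)
  have htgt : Function.Injective fun β : X => tgt (β : Om (cA n)) := by
    intro β γ h
    by_contra hne
    have hne' : (β : Om (cA n)) ≠ γ := fun h' => hne (Subtype.ext h')
    obtain ⟨w, s, t, h1, h2⟩ := mh_cases (cA n) _ _ (hX β β.2 γ γ.2) hne'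
    have hst : s ≠ t := by
      rintro rfl
      exact hne' (h1.trans h2.symm)
    have h4 : tgt (β : Om (cA n)) = tgt (γ : Om (cA n)) := h
    rw [h1, h2, tgt_cl, tgt_cl] at h4
    exact hsc s t hst ((aA w).injective h4)
  obtain ⟨π, hπ⟩ := ex_perm _ _ hsrc htgt
  refine hC.base.of_injective _ _ (amap (M := rs (mh (cA n)) X) (M' := permM π)
    (fun β => src (β : Om (cA n))) (fun β γ => ?_)) (amap_injective _ _ hsrc)
    (C_perm hC hmet hcox (n + 1) h3 (Fin (n + 1)) π (Nat.card_fin _))
  show permM π (src (β : Om (cA n))) (src (γ : Om (cA n))) = mh (cA n) β γ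
  by_cases hβγ : β = γ
  · rw [hβγ, (permM π).diagonal, (mh (cA n)).diagonal]
  have hne' : (β : Om (cA n)) ≠ γ := fun h' => hβγ (Subtype.ext h')
  have hsne : src (β : Om (cA n)) ≠ src (γ : Om (cA n)) := fun h => hβγ (hsrc h)
  rw [permM_apply, if_neg hsne]
  have e1 : π (src (β : Om (cA n))) = tgt (β : Om (cA n)) := hπ β
  have e2 : π (src (γ : Om (cA n))) = tgt (γ : Om (cA n)) := hπ γ
  rw [e1, e2]
  obtain ⟨w, s, t, h1, h2⟩ := mh_cases (cA n) _ _ (hX β β.2 γ γ.2) hne'
  have hst : s ≠ t := by
    rintro rfl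
    exact hne' (h1.trans h2.symm)
  have hst' : (s : ℕ) ≠ t := fun h => hst (Fin.ext h)
  have hq1 : aA w t.castSucc = aA w s.succ ↔ (t : ℕ) = s + 1 := by
    rw [(aA w).injective.eq_iff, Fin.ext_iff, Fin.val_castSucc, Fin.val_succ]
  have hq2 : aA w s.castSucc = aA w t.succ ↔ (s : ℕ) = t + 1 := by
    rw [(aA w).injective.eq_iff, Fin.ext_iff, Fin.val_castSucc, Fin.val_succ]
  rw [h1, h2, mh_cl, src_cl, src_cl, tgt_cl, tgt_cl, A_apply, if_neg hst]
  by_cases h5 : (t : ℕ) = s + 1
  · have h7 := hq1.2 h5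
    have h8 : ¬ aA w s.castSucc = aA w t.succ := fun h => by
      have := hq2.1 h
      omega
    rw [if_neg (fun h => h8 h.2), if_pos (Or.inl h7), if_pos (Or.inr h5.symm)]
  · have h5' : ¬ aA w t.castSucc = aA w s.succ := fun h => h5 (hq1.1 h)
    by_cases h6 : (s : ℕ) = t + 1
    · rw [if_neg (fun h => h5' h.1), if_pos (Or.inr (hq2.2 h6)), if_pos (Or.inl h6.symm)]
    · have h6' : ¬ aA w s.castSucc = aA w t.succ := fun h => h6 (hq2.1 h)
      have h8 : ¬ ((t : ℕ) + 1 = s ∨ (s : ℕ) + 1 = t) := by omega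
      rw [if_neg (fun h => h5' h.1), if_neg (fun h => h.elim h5' h6'), if_neg h8]

/-- **the virtual Artin groups of type `A`** -/
theorem C_VA_A {C : ∀ (G : Type) [Group G], Prop} (hC : ClosedE C)
    (hmet : ∀ (G : Type) [Group G], derivedSeries G 2 = ⊥ → C G)
    (hcox : ∀ (S : Type) (_ : Finite S) (A : CoxeterMatrix S), C A.Group)
    (h3 : ∀ k, 3 ≤ k → k ≤ n + 1 → C (Artin (affA k))) : C (VArtin (CoxeterMatrix.A n)) :=
  (C_VArtin (cA n) hC hmet hcox (hcox _ inferInstance _)).2 fun X hXf hX =>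
    C_clique hC hmet hcox h3 X hXf hX

end act

end Pool.Agent.L7h59.VA
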