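import Pool.Agent.L7h59.VA.Braid

/-!
# The virtual braid groups
-/

set_option autoImplicit false
set_option linter.unusedSectionVars false

namespace Pool.Agent.L7h59.VA

open CoxeterSystem Pool.Agent.Helper703.Cox Pool.Agent.TH5.BD Pool.Agent.L7h59.AR
open Pool.Agent.Y110.FJ

/-- the relations between the generators `σ i` and `ρ i`, `i : Fin n`, of the virtual braid group on
`n + 1` strands -/
structure VBRel {n : ℕ} {V : Type} [Group V] (σ ρ : Fin n → V) : Prop where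
  σ_comm : ∀ i j : Fin n, (i : ℕ) + 1 < j → σ i * σ j = σ j * σ i
  σ_braid : ∀ i j : Fin n, (i : ℕ) + 1 = j → σ i * σ j * σ i = σ j * σ i * σ j
  ρ_sq : ∀ i : Fin n, ρ i * ρ i = 1
  ρ_comm : ∀ i j : Fin n, (i : ℕ) + 1 < j → ρ i * ρ j = ρ j * ρ i
  ρ_braid : ∀ i j : Fin n, (i : ℕ) + 1 = j → ρ i * ρ j * ρ i = ρ j * ρ i * ρ j
  mixed_comm : ∀ i j : Fin n, (i : ℕ) + 1 < j ∨ (j : ℕ) + 1 < i → σ i * ρ j = ρ j * σ i
  mixed : ∀ i j : Fin n, (i : ℕ) + 1 = j → ρ i * ρ j * σ i = σ j * ρ i * ρ j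

section

theorem alt_two {G : Type*} [Monoid G] (a b : G) : alt a b 2 = a * b := by
  simp [alt, List.range_succ]

theorem alt_three {G : Type*} [Monoid G] (a b : G) : alt a b 3 = a * b * a := by
  simp [alt, List.range_succ, mul_assoc]

theorem ra_two {G : Type*} [Monoid G] (a b : G) : ra a b (3 - 1) = b * a := by
  simp [ra]

theorem ra_one {G : Type*} [Monoid G] (a b : G) : ra a b (2 - 1) = a := by
  simp [ra]

variable {n : ℕ} {V : Type} [Group V] {σ ρ : Fin n → V}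

theorem vbrel_vrel (h : VBRel σ ρ) : VRel σ ρ (CoxeterMatrix.A n) where
  hσ i j := by
    rw [A_apply]
    by_cases hij : i = j
    · rw [hij]
    have hij' : (i : ℕ) ≠ j := fun h => hij (Fin.ext h)
    rw [if_neg hij]
    by_cases h1 : (j : ℕ) + 1 = i ∨ (i : ℕ) + 1 = j
    · rw [if_pos h1, alt_three, alt_three]
      rcases h1 with h1 | h1
      · exact (h.σ_braid j i h1).symm
      · exact h.σ_braid i j h1
    · rw [if_neg h1, alt_two, alt_two]
      rcases lt_or_gt_of_ne hij' with h2 | h2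
      · exact h.σ_comm i j (by omega)
      · exact (h.σ_comm j i (by omega)).symm
  hτ i j := by
    rw [A_apply]
    by_cases hij : i = j
    · rw [if_pos hij, pow_one, hij]
      exact h.ρ_sq j
    have hij' : (i : ℕ) ≠ j := fun h => hij (Fin.ext h)
    rw [if_neg hij]
    by_cases h1 : (j : ℕ) + 1 = i ∨ (i : ℕ) + 1 = j
    · rw [if_pos h1]
      have e : ρ i * ρ j * ρ i = ρ j * ρ i * ρ j := by
        rcases h1 with h1 | h1
        · exact (h.ρ_braid j i h1).symm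
        · exact h.ρ_braid i j h1
      calc (ρ i * ρ j) ^ 3 = (ρ i * ρ j * ρ i) * (ρ j * ρ i * ρ j) := by
            simp only [pow_succ, pow_zero, one_mul, mul_assoc]
        _ = (ρ i * ρ j * ρ i) * (ρ i * ρ j * ρ i) := by rw [e]
        _ = ρ i * (ρ j * (ρ i * ρ i) * ρ j) * ρ i := by simp only [mul_assoc]
        _ = 1 := by rw [h.ρ_sq, mul_one, h.ρ_sq, mul_one, h.ρ_sq]
    · rw [if_neg h1]
      have e : ρ i * ρ j = ρ j * ρ i := by
        rcases lt_or_gt_of_ne hij' with h2 | h2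
        · exact h.ρ_comm i j (by omega)
        · exact (h.ρ_comm j i (by omega)).symm
      calc (ρ i * ρ j) ^ 2 = (ρ i * ρ j) * (ρ i * ρ j) := pow_two _
        _ = (ρ i * ρ j) * (ρ j * ρ i) := by rw [e]
        _ = ρ i * (ρ j * ρ j) * ρ i := by simp only [mul_assoc]
        _ = 1 := by rw [h.ρ_sq, mul_one, h.ρ_sq]
  hm i j hij hm := by
    have hij' : (i : ℕ) ≠ j := fun h => hij (Fin.ext h)
    unfold rr
    rw [A_apply, if_neg hij]
    by_cases h1 : (j : ℕ) + 1 = i ∨ (i : ℕ) + 1 = j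
    · rw [if_pos h1, ra_two, if_neg (by decide)]
      rcases h1 with h1 | h1
      · have e := h.mixed j i h1
        have e1 : (ρ i * ρ j) * (ρ j * ρ i) = 1 := by
          calc (ρ i * ρ j) * (ρ j * ρ i) = ρ i * (ρ j * ρ j) * ρ i := by simp only [mul_assoc]
            _ = 1 := by rw [h.ρ_sq, mul_one, h.ρ_sq]
        have e2 : (ρ j * ρ i) * (ρ i * ρ j) = 1 := by
          calc (ρ j * ρ i) * (ρ i * ρ j) = ρ j * (ρ i * ρ i) * ρ j := by simp only [mul_assoc]
            _ = 1 := by rw [h.ρ_sq, mul_one, h.ρ_sq]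
        calc ρ i * ρ j * σ i = (ρ i * ρ j) * (σ i * ρ j * ρ i) * (ρ i * ρ j) := by
              rw [mul_assoc (σ i), mul_assoc (ρ i * ρ j), mul_assoc (σ i), e2, mul_one]
          _ = (ρ i * ρ j) * (ρ j * ρ i * σ j) * (ρ i * ρ j) := by rw [e]
          _ = ((ρ i * ρ j) * (ρ j * ρ i)) * (σ j * (ρ i * ρ j)) := by simp only [mul_assoc]
          _ = σ j * (ρ i * ρ j) := by rw [e1, one_mul]
      · rw [h.mixed i j h1, mul_assoc]
    · rw [if_neg h1, ra_one, if_pos (by decide)]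
      exact (h.mixed_comm i j (by omega)).symm

theorem vrel_vbrel (h : VRel σ ρ (CoxeterMatrix.A n)) : VBRel σ ρ := by
  have h2 : ∀ i j : Fin n, ((i : ℕ) + 1 < j ∨ (j : ℕ) + 1 < i) → CoxeterMatrix.A n i j = 2 := by
    intro i j hij
    rw [A_apply, if_neg (fun h => by subst h; omega), if_neg (by omega)]
  have h3 : ∀ i j : Fin n, (i : ℕ) + 1 = j → CoxeterMatrix.A n i j = 3 := by
    intro i j hij
    rw [A_apply, if_neg (fun h => by subst h; omega), if_pos (Or.inr hij)]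
  have hsq : ∀ i, ρ i * ρ i = 1 := fun i => by
    have := h.hτ i i
    rwa [(CoxeterMatrix.A n).diagonal, pow_one] at this
  refine ⟨?_, ?_, hsq, ?_, ?_, ?_, ?_⟩
  · intro i j hij
    have := h.hσ i j
    rwa [h2 i j (Or.inl hij), alt_two, alt_two] at this
  · intro i j hij
    have := h.hσ i j
    rwa [h3 i j hij, alt_three, alt_three] at this
  · intro i j hij
    have := h.hτ i j
    rw [h2 i j (Or.inl hij), pow_two] at this
    calc ρ i * ρ j = (ρ i * ρ j) * ((ρ j * ρ j) * (ρ i * ρ i)) := by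
          rw [hsq, hsq, mul_one, mul_one]
      _ = (ρ i * (ρ j * ρ j)) * (ρ j * ρ i * ρ i) := by simp only [mul_assoc]
      _ = (ρ i * (ρ j * ρ j)) * (ρ j * (ρ i * ρ i)) := by simp only [mul_assoc]
      _ = ρ i * ρ j := by rw [hsq, hsq, mul_one, mul_one]
      _ = (ρ j * ρ i) * ((ρ i * ρ j) * (ρ i * ρ j)) := by
          have : (ρ j * ρ i) * ((ρ i * ρ j) * (ρ i * ρ j)) =
            ρ j * (ρ i * ρ i) * ρ j * (ρ i * ρ j) := by simp only [mul_assoc]
          rw [this, hsq, mul_one, hsq, one_mul]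
      _ = ρ j * ρ i := by rw [this, mul_one]
  · intro i j hij
    have := h.hτ i j
    rw [h3 i j hij] at this
    have e : (ρ i * ρ j * ρ i) * (ρ j * ρ i * ρ j) = 1 := by
      rw [← this]
      simp only [pow_succ, pow_zero, one_mul, mul_assoc]
    have e2 : (ρ j * ρ i * ρ j) * (ρ j * ρ i * ρ j) = 1 := by
      calc (ρ j * ρ i * ρ j) * (ρ j * ρ i * ρ j) = ρ j * (ρ i * (ρ j * ρ j) * ρ i) * ρ j := by
            simp only [mul_assoc]
        _ = 1 := by rw [hsq, mul_one, hsq, mul_one, hsq]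
    exact mul_right_cancel (e.trans e2.symm)
  · intro i j hij
    have hne : i ≠ j := fun h => by subst h; omega
    have := h.hm i j hne (by rw [h2 i j hij]; norm_num)
    unfold rr at this
    rw [h2 i j hij, ra_one, if_pos (by decide)] at this
    exact this.symm
  · intro i j hij
    have hne : i ≠ j := fun h => by subst h; omega
    have := h.hm i j hne (by rw [h3 i j hij]; norm_num)
    unfold rr at this
    rw [h3 i j hij, ra_two, if_neg (by decide)] at this
    rw [this, mul_assoc]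

end

/-- the relators of the virtual braid group on `n + 1` strands; `Sum.inl i` stands for `σ i`,
`Sum.inr i` for `ρ i` -/
def vbrels (n : ℕ) : Set (FreeGroup (Fin n ⊕ Fin n)) :=
  {r | ∃ i j : Fin n, (i : ℕ) + 1 < j ∧
    r = FreeGroup.of (Sum.inl i) * FreeGroup.of (Sum.inl j) *
      (FreeGroup.of (Sum.inl j) * FreeGroup.of (Sum.inl i))⁻¹} ∪
  {r | ∃ i j : Fin n, (i : ℕ) + 1 = j ∧
    r = FreeGroup.of (Sum.inl i) * FreeGroup.of (Sum.inl j) * FreeGroup.of (Sum.inl i) *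
      (FreeGroup.of (Sum.inl j) * FreeGroup.of (Sum.inl i) * FreeGroup.of (Sum.inl j))⁻¹} ∪
  {r | ∃ i : Fin n, r = FreeGroup.of (Sum.inr i) * FreeGroup.of (Sum.inr i)} ∪
  {r | ∃ i j : Fin n, (i : ℕ) + 1 < j ∧
    r = FreeGroup.of (Sum.inr i) * FreeGroup.of (Sum.inr j) *
      (FreeGroup.of (Sum.inr j) * FreeGroup.of (Sum.inr i))⁻¹} ∪
  {r | ∃ i j : Fin n, (i : ℕ) + 1 = j ∧
    r = FreeGroup.of (Sum.inr i) * FreeGroup.of (Sum.inr j) * FreeGroup.of (Sum.inr i) *
      (FreeGroup.of (Sum.inr j) * FreeGroup.of (Sum.inr i) * FreeGroup.of (Sum.inr j))⁻¹} ∪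
  {r | ∃ i j : Fin n, ((i : ℕ) + 1 < j ∨ (j : ℕ) + 1 < i) ∧
    r = FreeGroup.of (Sum.inl i) * FreeGroup.of (Sum.inr j) *
      (FreeGroup.of (Sum.inr j) * FreeGroup.of (Sum.inl i))⁻¹} ∪
  {r | ∃ i j : Fin n, (i : ℕ) + 1 = j ∧
    r = FreeGroup.of (Sum.inr i) * FreeGroup.of (Sum.inr j) * FreeGroup.of (Sum.inl i) *
      (FreeGroup.of (Sum.inl j) * FreeGroup.of (Sum.inr i) * FreeGroup.of (Sum.inr j))⁻¹}

/-- the virtual braid group on `n + 1` strands -/
abbrev VB (n : ℕ) : Type := PresentedGroup (vbrels n)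

variable {n : ℕ}

theorem vb_rel : VBRel (V := VB n) (fun i => PresentedGroup.of (Sum.inl i))
    (fun i => PresentedGroup.of (Sum.inr i)) := by
  have key : ∀ a b : FreeGroup (Fin n ⊕ Fin n), a * b⁻¹ ∈ vbrels n →
      PresentedGroup.mk (vbrels n) a = PresentedGroup.mk (vbrels n) b := by
    intro a b h
    have := PresentedGroup.one_of_mem h
    rwa [map_mul, map_inv, mul_inv_eq_one] at this
  refine ⟨?_, ?_, ?_, ?_, ?_, ?_, ?_⟩
  · intro i j hij
    exact key _ _ (Or.inl (Or.inl (Or.inl (Or.inl (Or.inl (Or.inl ⟨i, j, hij, rfl⟩))))))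
  · intro i j hij
    exact key _ _ (Or.inl (Or.inl (Or.inl (Or.inl (Or.inl (Or.inr ⟨i, j, hij, rfl⟩))))))
  · intro i
    exact PresentedGroup.one_of_mem (Or.inl (Or.inl (Or.inl (Or.inl (Or.inr ⟨i, rfl⟩)))))
  · intro i j hij
    exact key _ _ (Or.inl (Or.inl (Or.inl (Or.inr ⟨i, j, hij, rfl⟩))))
  · intro i j hij
    exact key _ _ (Or.inl (Or.inl (Or.inr ⟨i, j, hij, rfl⟩)))
  · intro i j hij
    exact key _ _ (Or.inl (Or.inr ⟨i, j, hij, rfl⟩))
  · intro i j hij
    exact key _ _ (Or.inr ⟨i, j, hij, rfl⟩)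

theorem vb_gen : Subgroup.closure
    (Set.range (fun i : Fin n => (PresentedGroup.of (Sum.inl i) : VB n)) ∪
      Set.range (fun i : Fin n => (PresentedGroup.of (Sum.inr i) : VB n))) = ⊤ := by
  rw [eq_top_iff, ← PresentedGroup.closure_range_of (vbrels n)]
  apply Subgroup.closure_mono
  rintro _ ⟨i | i, rfl⟩
  · exact Or.inl ⟨i, rfl⟩
  · exact Or.inr ⟨i, rfl⟩

/-- the universal property -/
theorem vb_hom {V : Type} [Group V] {σ ρ : Fin n → V} (h : VBRel σ ρ) :
    ∃ F : VB n →* V, (∀ i, F (PresentedGroup.of (Sum.inl i)) = σ i) ∧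
      ∀ i, F (PresentedGroup.of (Sum.inr i)) = ρ i := by
  refine ⟨PresentedGroup.toGroup (f := Sum.elim σ ρ) ?_,
    fun _ => PresentedGroup.toGroup.of _, fun _ => PresentedGroup.toGroup.of _⟩
  rintro _ ((((((⟨i, j, hij, rfl⟩ | ⟨i, j, hij, rfl⟩) | ⟨i, rfl⟩) | ⟨i, j, hij, rfl⟩) |
    ⟨i, j, hij, rfl⟩) | ⟨i, j, hij, rfl⟩) | ⟨i, j, hij, rfl⟩)
  · simp only [map_mul, map_inv, FreeGroup.lift_apply_of, mul_inv_eq_one]
    exact h.σ_comm i j hij
  · simp only [map_mul, map_inv, FreeGroup.lift_apply_of, mul_inv_eq_one]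
    exact h.σ_braid i j hij
  · simp only [map_mul, FreeGroup.lift_apply_of]
    exact h.ρ_sq i
  · simp only [map_mul, map_inv, FreeGroup.lift_apply_of, mul_inv_eq_one]
    exact h.ρ_comm i j hij
  · simp only [map_mul, map_inv, FreeGroup.lift_apply_of, mul_inv_eq_one]
    exact h.ρ_braid i j hij
  · simp only [map_mul, map_inv, FreeGroup.lift_apply_of, mul_inv_eq_one]
    exact h.mixed_comm i j hij
  · simp only [map_mul, map_inv, FreeGroup.lift_apply_of, mul_inv_eq_one]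
    exact h.mixed i j hij

/-- **the virtual braid groups** -/
theorem C_VB {C : ∀ (G : Type) [Group G], Prop} (hC : ClosedE C)
    (hmet : ∀ (G : Type) [Group G], derivedSeries G 2 = ⊥ → C G)
    (hcox : ∀ (S : Type) (_ : Finite S) (A : CoxeterMatrix S), C A.Group)
    (n : ℕ) (h3 : ∀ k, 3 ≤ k → k ≤ n + 1 → C (Artin (affA k))) : C (VB n) := by
  obtain ⟨F, hσ, hτ⟩ := vb_hom (vrel_vbrel (vrel_Pv (cA n)))
  exact (C_V (cA n) hC hmet hcox (hcox _ inferInstance _) (vbrel_vrel vb_rel) vb_gen F hσ hτ).2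
    fun X hXf hX => C_clique hC hmet hcox h3 X hXf hX

end Pool.Agent.L7h59.VA
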