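import Pool.Agent.L7h59.VA.Pairs
import Pool.Agent.L7h59.VA.Vb

/-!
# Cycles of classes
-/

set_option autoImplicit false
set_option linter.unusedSectionVars false

namespace Pool.Agent.L7h59.VA

open CoxeterSystem Pool.Agent.Helper703.Cox Pool.Agent.TH5.BD Pool.Agent.L7h59.AR
open Pool.Agent.Y110.FJ

section

variable {n : ℕ}

theorem src_smul (w : (CoxeterMatrix.A n).Group) (β : Om (cA n)) :
    src (w • β) = aA w (src β) := by
  induction β using cl_ind with
  | h x s => rw [smul_cl, src_cl, src_cl, map_mul, Equiv.Perm.mul_apply]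

theorem tgt_smul (w : (CoxeterMatrix.A n).Group) (β : Om (cA n)) :
    tgt (w • β) = aA w (tgt β) := by
  induction β using cl_ind with
  | h x s => rw [smul_cl, tgt_cl, tgt_cl, map_mul, Equiv.Perm.mul_apply]

theorem src_neg (β : Om (cA n)) : src (neg (cA n) β) = tgt β := by
  induction β using cl_ind with
  | h x s =>
    rw [neg_cl, src_cl, tgt_cl, map_mul, Equiv.Perm.mul_apply, aA_simple]
    congr 1
    apply Fin.ext
    rw [tr_val]
    simp

theorem tgt_neg (β : Om (cA n)) : tgt (neg (cA n) β) = src β := by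
  rw [← src_neg, neg_neg]

theorem src_ne_tgt (β : Om (cA n)) : src β ≠ tgt β := by
  induction β using cl_ind with
  | h x s =>
    rw [src_cl, tgt_cl]
    intro h
    have h1 := (aA x).injective h
    rw [Fin.ext_iff] at h1
    simp at h1

section nz

variable [NeZero n]

theorem r_src_tgt (a : ℕ) : ∀ d, a + d < n → ((src (r n a d) : Fin (n + 1)) : ℕ) = a ∧
    ((tgt (r n a d) : Fin (n + 1)) : ℕ) = a + d + 1 := by
  intro d
  induction d with
  | zero =>
    intro h
    show ((src (cl (cA n) 1 (Fin.ofNat n a)) : Fin (n + 1)) : ℕ) = a ∧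
      ((tgt (cl (cA n) 1 (Fin.ofNat n a)) : Fin (n + 1)) : ℕ) = a + 0 + 1
    rw [src_cl, tgt_cl, map_one, Equiv.Perm.one_apply, Equiv.Perm.one_apply, Fin.val_castSucc,
      Fin.val_succ, ofNat_val a (by omega)]
    exact ⟨rfl, rfl⟩
  | succ d ih =>
    intro h
    obtain ⟨h1, h2⟩ := ih (by omega)
    show ((src ((cA n).simple (Fin.ofNat n (a + d + 1)) • r n a d) : Fin (n + 1)) : ℕ) = a ∧
      ((tgt ((cA n).simple (Fin.ofNat n (a + d + 1)) • r n a d) : Fin (n + 1)) : ℕ) =
        a + (d + 1) + 1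
    rw [src_smul, tgt_smul, aA_simple, tr_val, tr_val, h1, h2, ofNat_val _ (by omega)]
    constructor
    · rw [if_neg (by omega), if_neg (by omega)]
    · rw [if_pos rfl]; omega

theorem R_src_tgt (x y : ℕ) (hx : x ≤ n) (hy : y ≤ n) (h : x ≠ y) :
    ((src (R n x y) : Fin (n + 1)) : ℕ) = x ∧ ((tgt (R n x y) : Fin (n + 1)) : ℕ) = y := by
  unfold R
  by_cases h1 : x < y
  · rw [if_pos h1]
    obtain ⟨h2, h3⟩ := r_src_tgt (n := n) x (y - x - 1) (by omega)
    exact ⟨h2, by omega⟩
  · rw [if_neg h1, src_neg, tgt_neg]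
    obtain ⟨h2, h3⟩ := r_src_tgt (n := n) y (x - y - 1) (by omega)
    exact ⟨by omega, h2⟩

end nz

/-- the classes are the ordered pairs -/
theorem om_ext {β γ : Om (cA n)} (h1 : src β = src γ) (h2 : tgt β = tgt γ) : β = γ := by
  rcases Nat.eq_zero_or_pos n with hn | hn
  · subst hn
    exact absurd (Fin.ext (by omega)) (src_ne_tgt β)
  haveI : NeZero n := ⟨by omega⟩
  obtain ⟨x, y, hx, hy, hxy, e⟩ := R_surj β
  obtain ⟨x', y', hx', hy', hxy', e'⟩ := R_surj γ
  obtain ⟨h3, h4⟩ := R_src_tgt x y hx hy hxy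
  obtain ⟨h5, h6⟩ := R_src_tgt x' y' hx' hy' hxy'
  rw [← e] at h3 h4
  rw [← e'] at h5 h6
  have e1 : x = x' := by rw [← h3, ← h5, h1]
  have e2 : y = y' := by rw [← h4, ← h6, h2]
  rw [e, e', e1, e2]

theorem om_ex (a b : Fin (n + 1)) (h : a ≠ b) : ∃ β : Om (cA n), src β = a ∧ tgt β = b := by
  rcases Nat.eq_zero_or_pos n with hn | hn
  · subst hn
    exact absurd (Fin.ext (by omega)) h
  haveI : NeZero n := ⟨by omega⟩
  obtain ⟨h3, h4⟩ := R_src_tgt (n := n) a b (by omega) (by omega) (fun h' => h (Fin.ext h'))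
  exact ⟨R n a b, Fin.ext h3, Fin.ext h4⟩

theorem aA_surj (p : Equiv.Perm (Fin (n + 1))) : ∃ w, aA w = p := by
  have h : (⊤ : Submonoid (Equiv.Perm (Fin (n + 1)))) ≤ MonoidHom.mrange (aA (n := n)) := by
    rw [← Equiv.Perm.mclosure_swap_castSucc_succ n, Submonoid.closure_le]
    rintro _ ⟨i, rfl⟩
    exact ⟨(cA n).simple i, aA_simple i⟩
  exact h (Submonoid.mem_top p)

theorem mh_three (β γ : Om (cA n)) (h1 : tgt β = src γ) (h2 : src β ≠ tgt γ) :
    mh (cA n) β γ = 3 := by
  have hb := src_ne_tgt β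
  have hc := src_ne_tgt γ
  have hn : 2 ≤ n := by
    by_contra hn
    have e1 := Fin.val_ne_of_ne hb
    have e2 := Fin.val_ne_of_ne hc
    have e3 := Fin.val_ne_of_ne h2
    have e4 := congrArg Fin.val h1
    have := (src β).2
    have := (tgt β).2
    have := (tgt γ).2
    omega
  obtain ⟨p, hp⟩ := ex_perm (fun i : Fin 3 => (⟨i, by omega⟩ : Fin (n + 1)))
    ![src β, tgt β, tgt γ] (fun i j h => by
      have := congrArg Fin.val h
      exact Fin.ext this) (by
      intro i j h
      fin_cases i <;> fin_cases j <;> simp_all)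
  obtain ⟨w, hw⟩ := aA_surj p
  have e0 := hp 0
  have e1 := hp 1
  have e2 := hp 2
  have hβ : β = cl (cA n) w ⟨0, by omega⟩ := by
    apply om_ext
    · rw [src_cl, hw]; exact e0.symm
    · rw [tgt_cl, hw]; exact e1.symm
  have hγ : γ = cl (cA n) w ⟨1, by omega⟩ := by
    apply om_ext
    · rw [src_cl, hw, ← h1]; exact e1.symm
    · rw [tgt_cl, hw]; exact e2.symm
  rw [hβ, hγ, mh_cl, A_apply, if_neg (by simp), if_pos (by simp)]

theorem mh_two (β γ : Om (cA n)) (h1 : tgt β ≠ src γ) (h2 : src β ≠ tgt γ) (h3 : src β ≠ src γ)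
    (h4 : tgt β ≠ tgt γ) : mh (cA n) β γ = 2 := by
  have hb := src_ne_tgt β
  have hc := src_ne_tgt γ
  have hn : 3 ≤ n := by
    by_contra hn
    have e1 := Fin.val_ne_of_ne hb
    have e2 := Fin.val_ne_of_ne hc
    have e3 := Fin.val_ne_of_ne h2
    have e4 := Fin.val_ne_of_ne h1
    have e5 := Fin.val_ne_of_ne h3
    have e6 := Fin.val_ne_of_ne h4
    have := (src β).2
    have := (tgt β).2
    have := (tgt γ).2
    have := (src γ).2
    omega
  obtain ⟨p, hp⟩ := ex_perm (fun i : Fin 4 => (⟨i, by omega⟩ : Fin (n + 1)))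
    ![src β, tgt β, src γ, tgt γ] (fun i j h => by
      have := congrArg Fin.val h
      exact Fin.ext this) (by
      intro i j h
      fin_cases i <;> fin_cases j <;> simp_all)
  obtain ⟨w, hw⟩ := aA_surj p
  have e0 := hp 0
  have e1 := hp 1
  have e2 := hp 2
  have e3 := hp 3
  have hβ : β = cl (cA n) w ⟨0, by omega⟩ := by
    apply om_ext
    · rw [src_cl, hw]; exact e0.symm
    · rw [tgt_cl, hw]; exact e1.symm
  have hγ : γ = cl (cA n) w ⟨2, by omega⟩ := by
    apply om_ext
    · rw [src_cl, hw]; exact e2.symm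
    · rw [tgt_cl, hw]; exact e3.symm
  rw [hβ, hγ, mh_cl, A_apply, if_neg (by simp), if_neg (by simp)]

/-- **virtual braid groups and the Artin groups of type `Ã`** -/
theorem C_VB_iff {C : ∀ (G : Type) [Group G], Prop} (hC : ClosedE C)
    (hmet : ∀ (G : Type) [Group G], derivedSeries G 2 = ⊥ → C G)
    (hcox : ∀ (S : Type) (_ : Finite S) (A : CoxeterMatrix S), C A.Group) (n : ℕ) :
    C (VB n) ↔ ∀ k, 3 ≤ k → k ≤ n + 1 → C (Artin (affA k)) := by
  refine ⟨fun hV k hk hkn => ?_, C_VB hC hmet hcox n⟩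
  haveI : NeZero k := ⟨by omega⟩
  obtain ⟨F, hσ, hτ⟩ := vb_hom (vrel_vbrel (vrel_Pv (cA n)))
  have hV2 := (C_V (cA n) hC hmet hcox (hcox _ inferInstance _) (vbrel_vrel vb_rel) vb_gen F
    hσ hτ).1 hV
  have hlt : ∀ i : ZMod k, i.val < n + 1 := fun i => (ZMod.val_lt i).trans_le hkn
  have hpt : ∀ i j : ZMod k, (⟨i.val, hlt i⟩ : Fin (n + 1)) = ⟨j.val, hlt j⟩ ↔ i = j := by
    intro i j
    rw [Fin.ext_iff]
    exact (ZMod.val_injective k).eq_iff
  have h10 : (1 : ZMod k) ≠ 0 := by
    have h := ZMod.val_injective k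
    intro h1
    have h2 := congrArg ZMod.val h1
    rw [ZMod.val_zero, ZMod.val_one'' (by omega)] at h2
    omega
  have h20 : (1 : ZMod k) + 1 ≠ 0 := by
    intro h1
    have h2 : ((2 : ℕ) : ZMod k) = 0 := by
      push_cast
      rw [← h1]
      norm_num
    rw [ZMod.natCast_eq_zero_iff] at h2
    have := Nat.le_of_dvd (by norm_num) h2
    omega
  have hex : ∀ i : ZMod k, ∃ β : Om (cA n), src β = ⟨i.val, hlt i⟩ ∧
      tgt β = ⟨(i + 1).val, hlt (i + 1)⟩ := by
    intro i
    apply om_ex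
    intro h
    rw [hpt] at h
    exact h10 (by simpa using h)
  choose b hb1 hb2 using hex
  have hb : Function.Injective b := by
    intro i j h
    have h1 := congrArg src h
    rw [hb1, hb1, hpt] at h1
    exact h1
  have hmat : ∀ i j, mh (cA n) (b i) (b j) = affA k i j := by
    intro i j
    rw [affA_apply]
    by_cases hij : i = j
    · rw [if_pos hij, hij, (mh (cA n)).diagonal]
    rw [if_neg hij]
    by_cases h1 : j = i + 1
    · rw [if_pos (Or.inl h1)]
      apply mh_three
      · rw [hb2, hb1, hpt, h1]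
      · rw [hb1, hb2, Ne, hpt, h1]
        intro h
        apply h20
        have h2 : i + (1 + 1) = i + 0 := by rw [← add_assoc, ← h, add_zero]
        exact add_left_cancel h2
    · by_cases h2 : i = j + 1
      · rw [if_pos (Or.inr h2), (mh (cA n)).symmetric]
        apply mh_three
        · rw [hb2, hb1, hpt, h2]
        · rw [hb1, hb2, Ne, hpt, h2]
          intro h
          apply h20
          have h2 : j + (1 + 1) = j + 0 := by rw [← add_assoc, ← h, add_zero]
          exact add_left_cancel h2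
      · rw [if_neg (fun h => h.elim h1 h2)]
        apply mh_two
        · rw [hb2, hb1, Ne, hpt]
          exact fun h => h1 h.symm
        · rw [hb2, hb1, Ne, hpt]
          exact h2
        · rw [hb1, hb1, Ne, hpt]
          exact hij
        · rw [hb2, hb2, Ne, hpt]
          exact fun h => hij (add_right_cancel h)
  have hX := hV2 (Set.range b) (Set.finite_range b) (by
    rintro _ ⟨i, rfl⟩ _ ⟨j, rfl⟩
    rw [hmat, affA_apply]
    split_ifs <;> norm_num)
  exact hC.base.of_injective _ _ (amap (M := affA k) (M' := rs (mh (cA n)) (Set.range b))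
    (fun i => ⟨b i, i, rfl⟩) hmat) (amap_injective _ _ (fun i j h =>
      hb (congrArg Subtype.val h))) hX

end

end Pool.Agent.L7h59.VA
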