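import Pool.Agent.L7h59.VA.Base

/-!
# Virtual Artin groups in classes of groups
-/

set_option autoImplicit false
set_option linter.unusedSectionVars false

namespace Pool.Agent.L7h59.VA

open CoxeterSystem Pool.Agent.Helper703.Cox Pool.Agent.TH5.BD Pool.Agent.L7h59.AR
open Pool.Agent.Y110.FJ

section

variable {B : Type} [Fintype B] [DecidableEq B] {M : CoxeterMatrix B} {W : Type} [Group W]
  (cs : CoxeterSystem M W) {V : Type} [Group V] {σ τ : B → V}

theorem F_injective (h : VRel σ τ M)
    (hgen : Subgroup.closure (Set.range σ ∪ Set.range τ) = ⊤) (F : V →* Pv cs)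
    (hσ : ∀ s, F (σ s) = SemidirectProduct.inl (Artin.gen (mh cs) (cl cs 1 s)))
    (hτ : ∀ s, F (τ s) = SemidirectProduct.inr (cs.simple s)) : Function.Injective F := by
  have h1 : (Gv cs h).comp F = MonoidHom.id V := by
    apply MonoidHom.eq_of_eqOn_dense hgen
    rintro _ (⟨s, rfl⟩ | ⟨s, rfl⟩)
    · show Gv cs h (F (σ s)) = σ s
      rw [hσ]
      exact Gv_inl cs h s
    · show Gv cs h (F (τ s)) = τ s
      rw [hτ]
      exact Gv_inr cs h s
  intro x y hxy
  have h2 : ∀ z, Gv cs h (F z) = z := fun z => DFunLike.congr_fun h1 z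
  rw [← h2 x, ← h2 y, hxy]

theorem G_injective (h : VRel σ τ M) (F : V →* Pv cs)
    (hσ : ∀ s, F (σ s) = SemidirectProduct.inl (Artin.gen (mh cs) (cl cs 1 s)))
    (hτ : ∀ s, F (τ s) = SemidirectProduct.inr (cs.simple s)) :
    Function.Injective (Gv cs h) := by
  have hg : F.comp (gv cs h) = SemidirectProduct.inr := by
    apply cs.ext_simple
    intro s
    rw [MonoidHom.comp_apply, gv_simple, hτ]
  have h1 : F.comp (Gv cs h) = MonoidHom.id (Pv cs) := by
    apply SemidirectProduct.hom_ext
    · apply Artin.hom_ext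
      intro β
      show F (Gv cs h (SemidirectProduct.inl (Artin.gen (mh cs) β))) =
        SemidirectProduct.inl (Artin.gen (mh cs) β)
      have e : Gv cs h (SemidirectProduct.inl (Artin.gen (mh cs) β)) = f0 cs h β := by
        unfold Gv
        exact (SemidirectProduct.lift_inl _ _ _ _).trans (fv_gen cs h β)
      rw [e]
      induction β using cl_ind with
      | h x s =>
        rw [f0_cl, map_mul, map_mul, map_inv, hσ]
        have e2 : F (gv cs h x) = SemidirectProduct.inr x := DFunLike.congr_fun hg x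
        rw [e2]
        have e3 := inr_inl cs x (cl cs 1 s)
        rw [smul_cl, mul_one] at e3
        exact e3
    · apply MonoidHom.ext
      intro x
      show F (Gv cs h (SemidirectProduct.inr x)) = SemidirectProduct.inr x
      have e : Gv cs h (SemidirectProduct.inr x) = gv cs h x := by
        unfold Gv
        exact SemidirectProduct.lift_inr _ _ _ _
      rw [e]
      exact DFunLike.congr_fun hg x
  intro x y hxy
  have h2 : ∀ z, F (Gv cs h z) = z := fun z => DFunLike.congr_fun h1 z
  rw [← h2 x, ← h2 y, hxy]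

/-- groups with the presentation of a virtual Artin group -/
theorem C_V {C : ∀ (G : Type) [Group G], Prop} (hC : ClosedE C)
    (hmet : ∀ (G : Type) [Group G], derivedSeries G 2 = ⊥ → C G)
    (hcox : ∀ (S : Type) (_ : Finite S) (A : CoxeterMatrix S), C A.Group) (hW : C W)
    (h : VRel σ τ M)
    (hgen : Subgroup.closure (Set.range σ ∪ Set.range τ) = ⊤) (F : V →* Pv cs)
    (hσ : ∀ s, F (σ s) = SemidirectProduct.inl (Artin.gen (mh cs) (cl cs 1 s)))
    (hτ : ∀ s, F (τ s) = SemidirectProduct.inr (cs.simple s)) :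
    C V ↔ ∀ X : Set (Om cs), X.Finite → (∀ i ∈ X, ∀ j ∈ X, mh cs i j ≠ 0) →
      C (Artin (rs (mh cs) X)) := by
  rw [← C_Pv cs hC hmet hcox hW]
  exact ⟨fun hV => hC.base.of_injective _ _ (Gv cs h) (G_injective cs h F hσ hτ) hV,
    fun hP => hC.base.of_injective _ _ F (F_injective cs h hgen F hσ hτ) hP⟩

end

/-! ## the virtual Artin group of a Coxeter matrix -/

section

variable {B : Type} (M : CoxeterMatrix B)

/-- the relations: `Sum.inl i` is the Artin generator, `Sum.inr i` the reflection -/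
def vrels : Set (FreeGroup (B ⊕ B)) :=
  {x | ∃ i j : B, x = alt (FreeGroup.of (Sum.inl i)) (FreeGroup.of (Sum.inl j)) (M i j) *
      (alt (FreeGroup.of (Sum.inl j)) (FreeGroup.of (Sum.inl i)) (M i j))⁻¹} ∪
  {x | ∃ i j : B, x = (FreeGroup.of (Sum.inr i) * FreeGroup.of (Sum.inr j)) ^ M i j} ∪
  {x | ∃ i j : B, i ≠ j ∧ M i j ≠ 0 ∧
    x = ra (FreeGroup.of (Sum.inr j)) (FreeGroup.of (Sum.inr i)) (M i j - 1) *
      FreeGroup.of (Sum.inl i) *
      (FreeGroup.of (Sum.inl (if Even (M i j) then i else j)) *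
        ra (FreeGroup.of (Sum.inr j)) (FreeGroup.of (Sum.inr i)) (M i j - 1))⁻¹}

/-- the virtual Artin group -/
abbrev VArtin : Type := PresentedGroup (vrels M)

theorem vartin_rel : VRel (V := VArtin M) (fun i => PresentedGroup.of (Sum.inl i))
    (fun i => PresentedGroup.of (Sum.inr i)) M where
  hσ i j := by
    have h : PresentedGroup.mk (vrels M)
        (alt (FreeGroup.of (Sum.inl i)) (FreeGroup.of (Sum.inl j)) (M i j) *
      (alt (FreeGroup.of (Sum.inl j)) (FreeGroup.of (Sum.inl i)) (M i j))⁻¹) = 1 := by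
      apply PresentedGroup.one_of_mem
      exact Or.inl (Or.inl ⟨i, j, rfl⟩)
    rw [map_mul, map_inv, mul_inv_eq_one, map_alt, map_alt] at h
    exact h
  hτ i j := by
    have h : PresentedGroup.mk (vrels M)
        ((FreeGroup.of (Sum.inr i) * FreeGroup.of (Sum.inr j)) ^ M i j) = 1 := by
      apply PresentedGroup.one_of_mem
      exact Or.inl (Or.inr ⟨i, j, rfl⟩)
    rw [map_pow, map_mul] at h
    exact h
  hm i j hij hm := by
    have h : PresentedGroup.mk (vrels M)
        (ra (FreeGroup.of (Sum.inr j)) (FreeGroup.of (Sum.inr i)) (M i j - 1) *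
      FreeGroup.of (Sum.inl i) *
      (FreeGroup.of (Sum.inl (if Even (M i j) then i else j)) *
        ra (FreeGroup.of (Sum.inr j)) (FreeGroup.of (Sum.inr i)) (M i j - 1))⁻¹) = 1 := by
      apply PresentedGroup.one_of_mem
      exact Or.inr ⟨i, j, hij, hm, rfl⟩
    rw [map_mul, map_inv, mul_inv_eq_one, map_mul, map_mul, map_ra] at h
    exact h

theorem vartin_gen : Subgroup.closure
    (Set.range (fun i : B => (PresentedGroup.of (Sum.inl i) : VArtin M)) ∪
      Set.range (fun i : B => (PresentedGroup.of (Sum.inr i) : VArtin M))) = ⊤ := by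
  rw [eq_top_iff, ← PresentedGroup.closure_range_of (vrels M)]
  apply Subgroup.closure_mono
  rintro _ ⟨i | i, rfl⟩
  · exact Or.inl ⟨i, rfl⟩
  · exact Or.inr ⟨i, rfl⟩

variable [Fintype B] [DecidableEq B] {M} {W : Type} [Group W] (cs : CoxeterSystem M W)

/-- the homomorphism of the virtual Artin group -/
noncomputable def Fva : VArtin M →* Pv cs :=
  PresentedGroup.toGroup (f := Sum.elim
    (fun s => (SemidirectProduct.inl (Artin.gen (mh cs) (cl cs 1 s)) : Pv cs))
    (fun s => (SemidirectProduct.inr (cs.simple s) : Pv cs))) (by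
    have h := vrel_Pv cs
    rintro _ ((⟨i, j, rfl⟩ | ⟨i, j, rfl⟩) | ⟨i, j, hij, hm, rfl⟩)
    · rw [map_mul, map_inv, mul_inv_eq_one, map_alt, map_alt, FreeGroup.lift_apply_of,
        FreeGroup.lift_apply_of]
      exact h.hσ i j
    · rw [map_pow, map_mul, FreeGroup.lift_apply_of, FreeGroup.lift_apply_of]
      exact h.hτ i j
    · rw [map_mul, map_inv, mul_inv_eq_one, map_mul, map_mul, map_ra, FreeGroup.lift_apply_of,
        FreeGroup.lift_apply_of, FreeGroup.lift_apply_of, FreeGroup.lift_apply_of]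
      exact h.hm i j hij hm)

/-- **virtual Artin groups** -/
theorem C_VArtin {C : ∀ (G : Type) [Group G], Prop} (hC : ClosedE C)
    (hmet : ∀ (G : Type) [Group G], derivedSeries G 2 = ⊥ → C G)
    (hcox : ∀ (S : Type) (_ : Finite S) (A : CoxeterMatrix S), C A.Group) (hW : C W) :
    C (VArtin M) ↔ ∀ X : Set (Om cs), X.Finite → (∀ i ∈ X, ∀ j ∈ X, mh cs i j ≠ 0) →
      C (Artin (rs (mh cs) X)) :=
  C_V cs hC hmet hcox hW (vartin_rel M) (vartin_gen M) (Fva cs)
    (fun _ => PresentedGroup.toGroup.of _) (fun _ => PresentedGroup.toGroup.of _)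

end

end Pool.Agent.L7h59.VA
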