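import Pool.Agent.L7h59.VA.Braid

/-!
# The classes of type `A` are the ordered pairs
-/

set_option autoImplicit false
set_option linter.unusedSectionVars false

namespace Pool.Agent.L7h59.VA

open CoxeterSystem Pool.Agent.Helper703.Cox Pool.Agent.TH5.BD Pool.Agent.L7h59.AR
open Pool.Agent.Y110.FJ

section neg

variable {B : Type} [Fintype B] [DecidableEq B] {M : CoxeterMatrix B} {W : Type} [Group W]
  (cs : CoxeterSystem M W)

/-- the opposite class -/
def neg : Om cs → Om cs := Quot.map (fun p => (p.1 * cs.simple p.2, p.2)) (by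
  rintro _ _ ⟨x, s, t, hst, hm⟩
  show Mv cs (x * um cs s t * cs.simple s, s) (x * cs.simple (rr M s t), rr M s t)
  rw [mul_assoc, um_conj cs s t hm, ← mul_assoc]
  exact Mv.mk _ s t hst hm)

theorem neg_cl (w : W) (s : B) : neg cs (cl cs w s) = cl cs (w * cs.simple s) s := rfl

theorem neg_neg (β : Om cs) : neg cs (neg cs β) = β := by
  induction β using cl_ind with
  | h w s => rw [neg_cl, neg_cl, mul_assoc, cs.simple_mul_simple_self, mul_one]

theorem smul_neg (x : W) (β : Om cs) : x • neg cs β = neg cs (x • β) := by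
  induction β using cl_ind with
  | h w s => rw [neg_cl, smul_cl, smul_cl, neg_cl, mul_assoc]

end neg

theorem alt_three' {G : Type*} [Monoid G] (a b : G) : alt a b 3 = a * b * a := by
  simp [alt, List.range_succ, mul_assoc]

section

variable {n : ℕ} [NeZero n]

/-- the generators -/
noncomputable def S (n : ℕ) [NeZero n] (i : ℕ) : (CoxeterMatrix.A n).Group :=
  (cA n).simple (Fin.ofNat n i)

/-- the simple classes -/
noncomputable def kk (n : ℕ) [NeZero n] (i : ℕ) : Om (cA n) := cl (cA n) 1 (Fin.ofNat n i)

theorem ofNat_val (i : ℕ) (hi : i < n) : ((Fin.ofNat n i : Fin n) : ℕ) = i := by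
  simp [Nat.mod_eq_of_lt hi]

theorem S_S (i : ℕ) (β : Om (cA n)) : S n i • S n i • β = β := by
  rw [← mul_smul]
  unfold S
  rw [(cA n).simple_mul_simple_self, one_smul]

theorem S_comm {i j : ℕ} (hi : i < n) (hj : j < n) (h : i + 1 < j ∨ j + 1 < i) :
    S n i * S n j = S n j * S n i := by
  have h1 := braid (cA n) (Fin.ofNat n i) (Fin.ofNat n j)
  have h2 : CoxeterMatrix.A n (Fin.ofNat n i) (Fin.ofNat n j) = 2 := by
    rw [A_apply, if_neg, if_neg]
    · rw [ofNat_val i hi, ofNat_val j hj]; omega
    · rw [Fin.ext_iff, ofNat_val i hi, ofNat_val j hj]; omega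
  rw [h2, alt_two, alt_two] at h1
  exact h1

theorem S_braid {i : ℕ} (hi : i + 1 < n) :
    S n i * S n (i + 1) * S n i = S n (i + 1) * S n i * S n (i + 1) := by
  have h1 := braid (cA n) (Fin.ofNat n i) (Fin.ofNat n (i + 1))
  have h2 : CoxeterMatrix.A n (Fin.ofNat n i) (Fin.ofNat n (i + 1)) = 3 := by
    rw [A_apply, if_neg, if_pos]
    · rw [ofNat_val i (by omega), ofNat_val (i + 1) hi]; omega
    · rw [Fin.ext_iff, ofNat_val i (by omega), ofNat_val (i + 1) hi]; omega
  rw [h2, alt_three', alt_three'] at h1
  exact h1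

theorem S_kk {i a : ℕ} (hi : i < n) (ha : a < n) (h : i + 1 < a ∨ a + 1 < i) :
    S n i • kk n a = kk n a := by
  have hne : (Fin.ofNat n a : Fin n) ≠ Fin.ofNat n i := by
    intro h'
    rw [Fin.ext_iff, ofNat_val i hi, ofNat_val a ha] at h'
    omega
  have h2 : CoxeterMatrix.A n (Fin.ofNat n a) (Fin.ofNat n i) = 2 := by
    rw [A_apply, if_neg hne, if_neg]
    rw [ofNat_val i hi, ofNat_val a ha]; omega
  have h3 := cl_sound (cA n) 1 (Fin.ofNat n a) (Fin.ofNat n i) hne (by rw [h2]; norm_num)
  unfold um rr at h3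
  rw [h2, if_pos (by decide), one_mul] at h3
  simp only [ra] at h3
  unfold S kk
  rw [smul_cl, mul_one]
  simpa using h3

theorem S_kk_up {a : ℕ} (ha : a + 1 < n) : S n a • S n (a + 1) • kk n a = kk n (a + 1) := by
  have hne : (Fin.ofNat n a : Fin n) ≠ Fin.ofNat n (a + 1) := by
    intro h'
    rw [Fin.ext_iff, ofNat_val a (by omega), ofNat_val (a + 1) ha] at h'
    omega
  have h2 : CoxeterMatrix.A n (Fin.ofNat n a) (Fin.ofNat n (a + 1)) = 3 := by
    rw [A_apply, if_neg hne, if_pos]
    rw [ofNat_val a (by omega), ofNat_val (a + 1) ha]; omega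
  have h3 := cl_sound (cA n) 1 (Fin.ofNat n a) (Fin.ofNat n (a + 1)) hne (by rw [h2]; norm_num)
  unfold um rr at h3
  rw [h2, if_neg (by decide), one_mul] at h3
  simp only [ra] at h3
  unfold S kk
  rw [smul_cl, smul_cl, mul_one]
  simpa using h3

theorem S_kk_self (a : ℕ) : S n a • kk n a = neg (cA n) (kk n a) := by
  unfold S kk
  rw [smul_cl, neg_cl, mul_one, one_mul]

/-- the class of the pair `(a, a + d + 1)` -/
noncomputable def r (n : ℕ) [NeZero n] (a : ℕ) : ℕ → Om (cA n)
  | 0 => kk n a
  | d + 1 => S n (a + d + 1) • r n a d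

theorem r_far (a : ℕ) : ∀ d i, i < n → i ≠ a → i + 1 ≠ a → a + d < n →
    i ≠ a + d → i ≠ a + d + 1 → S n i • r n a d = r n a d := by
  intro d
  induction d using Nat.strong_induction_on with
  | _ d ih =>
    intro i hi h1 h2 hd h3 h4
    rcases d with _ | d
    · exact S_kk hi (by omega) (by omega)
    · by_cases h5 : i = a + d
      · subst h5
        rcases d with _ | e
        · omega
        · show S n (a + (e + 1)) • S n (a + (e + 1) + 1) • S n (a + e + 1) • r n a e =
            S n (a + (e + 1) + 1) • S n (a + e + 1) • r n a e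
          have h6 : a + (e + 1) = a + e + 1 := by omega
          rw [h6, ← mul_smul, ← mul_smul, S_braid (by omega), mul_smul, mul_smul,
            ih e (by omega) (a + e + 1 + 1) (by omega) (by omega) (by omega) (by omega) (by omega)
              (by omega)]
      · show S n i • S n (a + d + 1) • r n a d = S n (a + d + 1) • r n a d
        rw [← mul_smul, S_comm hi (by omega) (by omega), mul_smul,
          ih d (by omega) i hi h1 h2 (by omega) h5 (by omega)]

theorem r_down (a d : ℕ) : S n (a + d + 1) • r n a (d + 1) = r n a d := S_S _ _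

theorem r_left (a : ℕ) : ∀ d, a + d + 1 < n → S n a • r n a (d + 1) = r n (a + 1) d := by
  intro d
  induction d with
  | zero =>
    intro h
    exact S_kk_up (by omega)
  | succ d ih =>
    intro h
    show S n a • S n (a + (d + 1) + 1) • r n a (d + 1) = S n (a + 1 + d + 1) • r n (a + 1) d
    rw [← mul_smul, S_comm (by omega) (by omega) (by omega), mul_smul, ih (by omega)]
    have h1 : a + (d + 1) + 1 = a + 1 + d + 1 := by omega
    rw [h1]

theorem r_right (a d : ℕ) (h : a + d + 1 < n) : S n a • r n (a + 1) d = r n a (d + 1) := by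
  rw [← r_left a d h, S_S]

/-- the class of a pair -/
noncomputable def R (n : ℕ) [NeZero n] (x y : ℕ) : Om (cA n) :=
  if x < y then r n x (y - x - 1) else neg (cA n) (r n y (x - y - 1))

/-- the transposition -/
def sw (i x : ℕ) : ℕ := if x = i then i + 1 else if x = i + 1 then i else x

theorem S_R_lt (i x y : ℕ) (hi : i < n) (hy : y ≤ n) (h : x < y) :
    S n i • R n x y = R n (sw i x) (sw i y) := by
  unfold R
  rw [if_pos h]
  by_cases h1 : i = x
  · subst h1
    have e1 : sw i i = i + 1 := if_pos rfl
    by_cases h2 : y = i + 1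
    · subst h2
      have e2 : sw i (i + 1) = i := by unfold sw; rw [if_neg (by omega), if_pos rfl]
      rw [e1, e2, if_neg (by omega)]
      have e3 : i + 1 - i - 1 = 0 := by omega
      rw [e3]
      exact S_kk_self i
    · have e2 : sw i y = y := by unfold sw; rw [if_neg (by omega), if_neg h2]
      rw [e1, e2, if_pos (by omega)]
      obtain ⟨d, rfl⟩ : ∃ d, y = i + d + 2 := ⟨y - i - 2, by omega⟩
      have e3 : i + d + 2 - i - 1 = d + 1 := by omega
      have e4 : i + d + 2 - (i + 1) - 1 = d := by omega
      rw [e3, e4]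
      exact r_left i d (by omega)
  · by_cases h2 : x = i + 1
    · subst h2
      have e1 : sw i (i + 1) = i := by unfold sw; rw [if_neg (by omega), if_pos rfl]
      have e2 : sw i y = y := by unfold sw; rw [if_neg (by omega), if_neg (by omega)]
      rw [e1, e2, if_pos (by omega)]
      obtain ⟨d, rfl⟩ : ∃ d, y = i + d + 2 := ⟨y - i - 2, by omega⟩
      have e3 : i + d + 2 - i - 1 = d + 1 := by omega
      have e4 : i + d + 2 - (i + 1) - 1 = d := by omega
      rw [e3, e4]
      exact r_right i d (by omega)
    · have e1 : sw i x = x := by unfold sw; rw [if_neg (by omega), if_neg h2]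
      obtain ⟨d, rfl⟩ : ∃ d, y = x + d + 1 := ⟨y - x - 1, by omega⟩
      have e3 : x + d + 1 - x - 1 = d := by omega
      rw [e1, e3]
      by_cases h3 : x + d + 1 = i
      · have e2 : sw i (x + d + 1) = x + d + 2 := by unfold sw; rw [if_pos h3, ← h3]
        have e4 : x + d + 2 - x - 1 = d + 1 := by omega
        rw [e2, if_pos (by omega), e4, ← h3]
        rfl
      · by_cases h4 : x + d = i
        · obtain ⟨e, rfl⟩ : ∃ e, d = e + 1 := ⟨d - 1, by omega⟩
          have e2 : sw i (x + (e + 1) + 1) = x + e + 1 := by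
            unfold sw; rw [if_neg (by omega), if_pos (by omega)]; omega
          have e4 : x + e + 1 - x - 1 = e := by omega
          have e5 : i = x + e + 1 := by omega
          rw [e2, if_pos (by omega), e4, e5]
          exact r_down x e
        · have e2 : sw i (x + d + 1) = x + d + 1 := by
            unfold sw; rw [if_neg (by omega), if_neg (by omega)]
          rw [e2, if_pos (by omega), e3]
          exact r_far x d i hi h1 (by omega) (by omega) (by omega) (by omega)

theorem R_neg (x y : ℕ) (h : x ≠ y) : neg (cA n) (R n x y) = R n y x := by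
  unfold R
  by_cases h1 : x < y
  · rw [if_pos h1, if_neg (by omega)]
  · rw [if_neg h1, if_pos (by omega), neg_neg]

theorem S_R (i x y : ℕ) (hi : i < n) (hx : x ≤ n) (hy : y ≤ n) (h : x ≠ y) :
    S n i • R n x y = R n (sw i x) (sw i y) := by
  rcases lt_or_gt_of_ne h with h1 | h1
  · exact S_R_lt i x y hi hy h1
  · have h2 : sw i y ≠ sw i x := by
      unfold sw
      split_ifs <;> omega
    rw [← R_neg y x (by omega), smul_neg, S_R_lt i y x hi hx h1, R_neg _ _ h2]

theorem R_surj (β : Om (cA n)) : ∃ x y : ℕ, x ≤ n ∧ y ≤ n ∧ x ≠ y ∧ β = R n x y := by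
  induction β using cl_ind with
  | h w s =>
    induction w using (cA n).simple_induction_left with
    | one =>
      refine ⟨s, s + 1, by omega, by omega, by omega, ?_⟩
      unfold R
      rw [if_pos (by omega)]
      have e : (s : ℕ) + 1 - s - 1 = 0 := by omega
      rw [e]
      show cl (cA n) 1 s = cl (cA n) 1 (Fin.ofNat n s)
      congr 1
      apply Fin.ext
      rw [ofNat_val _ s.2]
    | mul_simple_left w i ih =>
      obtain ⟨x, y, hx, hy, hxy, h⟩ := ih
      refine ⟨sw i x, sw i y, ?_, ?_, ?_, ?_⟩
      · have := i.2; unfold sw; split_ifs <;> omega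
      · have := i.2; unfold sw; split_ifs <;> omega
      · unfold sw; split_ifs <;> omega
      · rw [← smul_cl, h]
        have e : (cA n).simple i = S n i := by
          unfold S
          congr 1
          apply Fin.ext
          rw [ofNat_val _ i.2]
        rw [e]
        exact S_R i x y i.2 hx hy hxy

end

end Pool.Agent.L7h59.VA
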